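import Pool.Agent.X320.KR.Solv

/-! Descent from the algebraic closure. -/

set_option autoImplicit false
set_option linter.all false

namespace Pool.Agent.X320.KR

open LieAlgebra Matrix

attribute [local instance 100] LieRing.ofAssociativeRing

/-- The common kernel of the brackets, over a field of characteristic zero. -/
theorem common {F : Type*} [Field F] [CharZero F] {n : ℕ}
    (L : Submodule F (Matrix (Fin n) (Fin n) F)) (hbr : ∀ X ∈ L, ∀ Y ∈ L, X * Y - Y * X ∈ L)
    (A A' : Matrix (Fin n) (Fin n) F) (hA : A * A' = 1) (hA' : A' * A = 1) (hconj : ∀ X ∈ L, A * X * A' ∈ L)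
    {N : ℕ} (hN : 0 < N) (hAN : ∀ X ∈ L, A ^ N * X = X * A ^ N)
    (hsum : ∀ X ∈ L, ∀ Y ∈ L, (∑ i ∈ Finset.range N, A ^ i * X * A' ^ i) * Y =
      Y * ∑ i ∈ Finset.range N, A ^ i * X * A' ^ i)
    (V : Submodule F (Fin n → F)) (hV : V ≠ ⊥) (hLV : ∀ X ∈ L, ∀ v ∈ V, X *ᵥ v ∈ V) :
    ∃ v ∈ V, v ≠ 0 ∧ ∀ X ∈ L, ∀ Y ∈ L, (X * Y - Y * X) *ᵥ v = 0 := by
  let k := AlgebraicClosure F
  let mp : Matrix (Fin n) (Fin n) F →+* Matrix (Fin n) (Fin n) k := (algebraMap F k).mapMatrix
  have hmp : ∀ X i j, mp X i j = algebraMap F k (X i j) := fun X i j => rfl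
  let S : Submodule k (Matrix (Fin n) (Fin n) k) := Submodule.span k (mp '' (L : Set (Matrix (Fin n) (Fin n) F)))
  have hSL : ∀ X ∈ L, mp X ∈ S := fun X hX => Submodule.subset_span ⟨X, hX, rfl⟩
  have hind : ∀ (Q : Matrix (Fin n) (Fin n) k → Prop), (∀ X ∈ L, Q (mp X)) → Q 0 → (∀ X Y, Q X → Q Y → Q (X + Y)) →
      (∀ (c : k) X, Q X → Q (c • X)) → ∀ X ∈ S, Q X := by
    intro Q h1 h2 h3 h4 X hX
    refine Submodule.span_induction (p := fun X _ => Q X) ?_ h2 (fun X Y _ _ => h3 X Y) (fun c X _ => h4 c X) hX
    rintro _ ⟨X, hX, rfl⟩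
    exact h1 X hX
  let Lk : LieSubalgebra k (Matrix (Fin n) (Fin n) k) :=
    { S with
      lie_mem' := fun {X Y} hX hY => by
        show ⁅X, Y⁆ ∈ S
        refine hind (fun X => ⁅X, Y⁆ ∈ S) ?_ ?_ ?_ ?_ X hX
        · intro X hX
          refine hind (fun Y => ⁅mp X, Y⁆ ∈ S) ?_ ?_ ?_ ?_ Y hY
          · intro Y hY
            rw [Ring.lie_def, ← map_mul, ← map_mul, ← map_sub]
            exact hSL _ (hbr X hX Y hY)
          · rw [lie_zero]
            exact S.zero_mem
          · intro Y Y' h h'
            rw [lie_add]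
            exact S.add_mem h h'
          · intro c Y h
            rw [lie_smul]
            exact S.smul_mem c h
        · rw [zero_lie]
          exact S.zero_mem
        · intro X X' h h'
          rw [add_lie]
          exact S.add_mem h h'
        · intro c X h
          rw [smul_lie]
          exact S.smul_mem c h }
  have hLk : ∀ X, X ∈ Lk ↔ X ∈ S := fun X => Iff.rfl
  have hfin : ∀ X, (∑ i ∈ Finset.range N, mp A ^ i * mp X * mp A' ^ i) =
      mp (∑ i ∈ Finset.range N, A ^ i * X * A' ^ i) := by
    intro X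
    rw [map_sum]
    refine Finset.sum_congr rfl fun i _ => ?_
    rw [map_mul, map_mul, map_pow, map_pow]
  -- the space
  let cv : (Fin n → F) → (Fin n → k) := fun v i => algebraMap F k (v i)
  let W : Submodule k (Fin n → k) := Submodule.span k (cv '' (V : Set (Fin n → F)))
  have hcv : ∀ X v, mp X *ᵥ cv v = cv (X *ᵥ v) := by
    intro X v
    funext i
    show ∑ j, algebraMap F k (X i j) * algebraMap F k (v j) = algebraMap F k (∑ j, X i j * v j)
    rw [map_sum]
    exact Finset.sum_congr rfl fun j _ => (map_mul _ _ _).symm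
  have hW : W ≠ ⊥ := by
    obtain ⟨v, hv, hv0⟩ := Submodule.exists_mem_ne_zero_of_ne_bot hV
    intro h
    apply hv0
    have h1 : cv v ∈ W := Submodule.subset_span ⟨v, hv, rfl⟩
    rw [h, Submodule.mem_bot] at h1
    funext i
    have h2 := congrFun h1 i
    exact (algebraMap F k).injective (h2.trans (map_zero _).symm)
  obtain ⟨w, hw, hw0, hker⟩ := common_closed Lk (mp A) (mp A') (by rw [← map_mul, hA, map_one])
    (by rw [← map_mul, hA', map_one]) (by
      intro X hX
      refine hind (fun X => mp A * X * mp A' ∈ S) ?_ ?_ ?_ ?_ X hX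
      · intro X hX
        rw [← map_mul, ← map_mul]
        exact hSL _ (hconj X hX)
      · rw [mul_zero, zero_mul]
        exact S.zero_mem
      · intro X Y h h'
        rw [mul_add, add_mul]
        exact S.add_mem h h'
      · intro c X h
        rw [mul_smul_comm, smul_mul_assoc]
        exact S.smul_mem c h) hN (by
      intro X hX
      refine hind (fun X => mp A ^ N * X = X * mp A ^ N) ?_ ?_ ?_ ?_ X hX
      · intro X hX
        rw [← map_pow, ← map_mul, hAN X hX, map_mul]
      · rw [mul_zero, zero_mul]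
      · intro X Y h h'
        rw [mul_add, add_mul, h, h']
      · intro c X h
        rw [mul_smul_comm, smul_mul_assoc, h]) (by
      intro X hX Y hY
      have hadd : ∀ X X' : Matrix (Fin n) (Fin n) k, (∑ i ∈ Finset.range N, mp A ^ i * (X + X') * mp A' ^ i) =
          (∑ i ∈ Finset.range N, mp A ^ i * X * mp A' ^ i) + ∑ i ∈ Finset.range N, mp A ^ i * X' * mp A' ^ i := by
        intro X X'
        rw [← Finset.sum_add_distrib]
        refine Finset.sum_congr rfl fun i _ => ?_
        rw [mul_add, add_mul]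
      have hsm : ∀ (c : k) (X : Matrix (Fin n) (Fin n) k), (∑ i ∈ Finset.range N, mp A ^ i * (c • X) * mp A' ^ i) =
          c • (∑ i ∈ Finset.range N, mp A ^ i * X * mp A' ^ i) := by
        intro c X
        rw [Finset.smul_sum]
        refine Finset.sum_congr rfl fun i _ => ?_
        rw [mul_smul_comm, smul_mul_assoc]
      refine hind (fun X => (∑ i ∈ Finset.range N, mp A ^ i * X * mp A' ^ i) * Y =
        Y * ∑ i ∈ Finset.range N, mp A ^ i * X * mp A' ^ i) ?_ ?_ ?_ ?_ X hX
      · intro X hX
        rw [hfin]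
        refine hind (fun Y => mp (∑ i ∈ Finset.range N, A ^ i * X * A' ^ i) * Y =
          Y * mp (∑ i ∈ Finset.range N, A ^ i * X * A' ^ i)) ?_ ?_ ?_ ?_ Y hY
        · intro Y hY
          rw [← map_mul, hsum X hX Y hY, map_mul]
        · rw [mul_zero, zero_mul]
        · intro Y Y' h h'
          rw [mul_add, add_mul, h, h']
        · intro c Y h
          rw [mul_smul_comm, smul_mul_assoc, h]
      · have : (∑ i ∈ Finset.range N, mp A ^ i * (0 : Matrix (Fin n) (Fin n) k) * mp A' ^ i) = 0 :=
          Finset.sum_eq_zero fun i _ => by rw [mul_zero, zero_mul]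
        rw [this, mul_zero, zero_mul]
      · intro X X' h h'
        rw [hadd, add_mul, mul_add, h, h']
      · intro c X h
        rw [hsm, smul_mul_assoc, mul_smul_comm, h]) W hW (by
      intro X hX v hv
      refine hind (fun X => X *ᵥ v ∈ W) ?_ ?_ ?_ ?_ X hX
      · intro X hX
        refine Submodule.span_induction (p := fun v _ => mp X *ᵥ v ∈ W) ?_ ?_ ?_ ?_ hv
        · rintro _ ⟨v, hv, rfl⟩
          rw [hcv]
          exact Submodule.subset_span ⟨_, hLV X hX v hv, rfl⟩
        · rw [mulVec_zero]
          exact W.zero_mem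
        · intro v v' _ _ h h'
          rw [mulVec_add]
          exact W.add_mem h h'
        · intro c v _ h
          rw [mulVec_smul]
          exact W.smul_mem c h
      · rw [zero_mulVec]
        exact W.zero_mem
      · intro X X' h h'
        rw [add_mulVec]
        exact W.add_mem h h'
      · intro c X h
        rw [smul_mulVec]
        exact W.smul_mem c h)
  -- descend
  obtain ⟨j, hj⟩ : ∃ j, w j ≠ 0 := by
    by_contra h
    push Not at h
    exact hw0 (funext h)
  obtain ⟨f, hf⟩ : ∃ f : k →ₗ[F] F, f (w j) ≠ 0 := by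
    by_contra h
    push Not at h
    exact hj ((Module.forall_dual_apply_eq_zero_iff F (w j)).1 h)
  have hdesc : ∀ f : k →ₗ[F] F, (fun i => f (w i)) ∈ V := by
    refine Submodule.span_induction (p := fun w _ => ∀ f : k →ₗ[F] F, (fun i => f (w i)) ∈ V) ?_ ?_ ?_ ?_ hw
    · rintro _ ⟨v, hv, rfl⟩ f
      have e : (fun i => f (cv v i)) = f 1 • v := by
        funext i
        show f (algebraMap F k (v i)) = f 1 * v i
        rw [Algebra.algebraMap_eq_smul_one, map_smul, smul_eq_mul, mul_comm]
      rw [e]
      exact V.smul_mem _ hv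
    · intro f
      have e : (fun i => f ((0 : Fin n → k) i)) = 0 := by
        funext i
        exact map_zero f
      rw [e]
      exact V.zero_mem
    · intro v v' _ _ h h' f
      have e : (fun i => f ((v + v') i)) = (fun i => f (v i)) + fun i => f (v' i) := by
        funext i
        exact map_add f _ _
      rw [e]
      exact V.add_mem (h f) (h' f)
    · intro c v _ h f
      have h1 := h (f ∘ₗ LinearMap.mulLeft F c)
      exact h1
  have hmv : ∀ X : Matrix (Fin n) (Fin n) F, X *ᵥ (fun i => f (w i)) = fun i => f ((mp X *ᵥ w) i) := by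
    intro X
    funext i
    show ∑ j, X i j * f (w j) = f (∑ j, algebraMap F k (X i j) * w j)
    rw [map_sum]
    refine Finset.sum_congr rfl fun j _ => ?_
    rw [← Algebra.smul_def, map_smul, smul_eq_mul]
  refine ⟨fun i => f (w i), hdesc f, fun h => hf (congrFun h j), fun X hX Y hY => ?_⟩
  rw [hmv]
  funext i
  rw [map_sub, map_mul, map_mul, hker (mp X) (hSL X hX) (mp Y) (hSL Y hY)]
  exact map_zero f

end Pool.Agent.X320.KR
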