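import Pool.Agent.X320.KR.Norm
import Pool.Agent.X320.KR.Desc
import Pool.Agent.X320.RU.Fun

/-! A compact group of matrices with many elements whose powers are scalar. -/

set_option autoImplicit false
set_option linter.all false

namespace Pool.Agent.X320.KR

open Filter Topology MeasureTheory Matrix Pool.Agent.X320.DS Pool.Agent.X320.RU

section scal

variable {F : Type*} [Field F] {n : ℕ}

/-- scalar matrices -/
def Scal (X : Matrix (Fin n) (Fin n) F) : Prop := (∀ a b, a ≠ b → X a b = 0) ∧ ∀ a b, X a a = X b b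

theorem scal_comm {X : Matrix (Fin n) (Fin n) F} (h : Scal X) (Y : Matrix (Fin n) (Fin n) F) : X * Y = Y * X := by
  ext i j
  rw [Matrix.mul_apply, Matrix.mul_apply, Finset.sum_eq_single i, Finset.sum_eq_single j, h.2 i j, mul_comm]
  · intro b _ hb
    rw [h.1 b j hb, mul_zero]
  · intro h; exact absurd (Finset.mem_univ _) h
  · intro b _ hb
    rw [h.1 i b hb.symm, zero_mul]
  · intro h; exact absurd (Finset.mem_univ _) h

theorem comm_scal {X : Matrix (Fin n) (Fin n) F} (h : ∀ Y : Matrix (Fin n) (Fin n) F, X * Y = Y * X) : Scal X := by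
  refine ⟨fun a b hab => ?_, fun a b => ?_⟩
  · have h1 := congrFun (congrFun (h (Matrix.single b b 1)) a) b
    rw [Matrix.mul_single_apply_same, Matrix.single_mul_apply_of_ne _ _ _ _ _ hab, mul_one] at h1
    exact h1
  · have h1 := congrFun (congrFun (h (Matrix.single a b 1)) a) b
    rw [Matrix.mul_single_apply_same, Matrix.single_mul_apply_same, mul_one, one_mul] at h1
    exact h1

/-- some positive power is a scalar matrix -/
def PowerScalar (X : Matrix (Fin n) (Fin n) F) : Prop := ∃ a : ℕ, 0 < a ∧ ∃ c : F, X ^ a = c • 1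

theorem pow_mem {G : Type*} [Group G] (ρ : G →* GL (Fin n) F) (W : Subgroup G) (N : ℕ) :
    ∀ a b, (fun x => ((ρ x : Matrix (Fin n) (Fin n) F) ^ N) a b) ∈ fn ρ W := by
  induction N with
  | zero =>
    intro a b
    have e : (fun x => ((ρ x : Matrix (Fin n) (Fin n) F) ^ 0) a b) =
        algebraMap F (G → F) ((1 : Matrix (Fin n) (Fin n) F) a b) := by
      funext x
      rw [pow_zero]
      rfl
    rw [e]
    exact (fn ρ W).algebraMap_mem _
  | succ N ih =>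
    intro a b
    have e : (fun x => ((ρ x : Matrix (Fin n) (Fin n) F) ^ (N + 1)) a b) =
        ∑ c, (fun x => ((ρ x : Matrix (Fin n) (Fin n) F) ^ N) a c) *
          (fun x => (ρ x : Matrix (Fin n) (Fin n) F) c b) := by
      funext x
      rw [pow_succ, Matrix.mul_apply, Finset.sum_apply]
      rfl
    rw [e]
    exact Subalgebra.sum_mem _ fun c _ => (fn ρ W).mul_mem (ih a c) (Algebra.subset_adjoin (Or.inl ⟨c, b, rfl⟩))

end scal

section group

variable {Γ : Type*} [Group Γ] [TopologicalSpace Γ] [IsTopologicalGroup Γ] [CompactSpace Γ]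
  {p : ℕ} [hp : Fact p.Prime] {E : Type*} [NontriviallyNormedField E] [CompleteSpace E] [IsUltrametricDist E]
  [NormedAlgebra ℚ_[p] E] {n : ℕ} (ρ : Γ →* GL (Fin n) E)

omit [IsTopologicalGroup Γ] [CompactSpace Γ] [TopologicalSpace Γ] [CompleteSpace E] in
theorem prod_log {x₀ u : Γ} {Y : Matrix (Fin n) (Fin n) E} (hlog : IsLog p (ρ u : Matrix (Fin n) (Fin n) E) Y)
    (j : ℕ) : Tendsto (fun m : ℕ => ((p : E) ^ m)⁻¹ •
      ((ρ ((u ^ p ^ m * x₀) ^ j * (x₀ ^ j)⁻¹) : Matrix (Fin n) (Fin n) E) - 1)) atTop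
      (𝓝 (∑ i ∈ Finset.range j, (ρ (x₀ ^ i) : Matrix (Fin n) (Fin n) E) * Y * (ρ (x₀ ^ i)⁻¹ : Matrix (Fin n) (Fin n) E))) := by
  induction j with
  | zero =>
    rw [Finset.sum_range_zero]
    refine tendsto_const_nhds.congr fun m => ?_
    rw [pow_zero, pow_zero, inv_one, mul_one, map_one, Units.val_one, sub_self, smul_zero]
  | succ j ih =>
    rw [Finset.sum_range_succ]
    have hmul : ∀ g h : Γ, (ρ (g * h) : Matrix (Fin n) (Fin n) E) = (ρ g : Matrix (Fin n) (Fin n) E) * (ρ h : Matrix (Fin n) (Fin n) E) := by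
      intro g h
      rw [map_mul, Units.val_mul]
    have h1 : (ρ (x₀ ^ j) : Matrix (Fin n) (Fin n) E) * (ρ (x₀ ^ j)⁻¹ : Matrix (Fin n) (Fin n) E) = 1 := by
      rw [← hmul, mul_inv_cancel, map_one, Units.val_one]
    have h2 : (ρ (x₀ ^ j)⁻¹ : Matrix (Fin n) (Fin n) E) * (ρ (x₀ ^ j) : Matrix (Fin n) (Fin n) E) = 1 := by
      rw [← hmul, inv_mul_cancel, map_one, Units.val_one]
    have hw := hlog.conj h1 h2
    rw [← hmul, ← hmul] at hw
    have hpw : ∀ m : ℕ, (ρ (x₀ ^ j * u * (x₀ ^ j)⁻¹) : Matrix (Fin n) (Fin n) E) ^ p ^ m =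
        (ρ (x₀ ^ j * u ^ p ^ m * (x₀ ^ j)⁻¹) : Matrix (Fin n) (Fin n) E) := by
      intro m
      rw [← conj_pow, map_pow, Units.val_pow_eq_pow_val]
    have h3 := (ih.mul hw.pow_tendsto).add hw
    rw [mul_one] at h3
    refine h3.congr fun m => ?_
    rw [hpw]
    have e : (u ^ p ^ m * x₀) ^ (j + 1) * (x₀ ^ (j + 1))⁻¹ =
        ((u ^ p ^ m * x₀) ^ j * (x₀ ^ j)⁻¹) * (x₀ ^ j * u ^ p ^ m * (x₀ ^ j)⁻¹) := by
      rw [pow_succ, pow_succ x₀]
      group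
    rw [e, hmul ((u ^ p ^ m * x₀) ^ j * (x₀ ^ j)⁻¹) (x₀ ^ j * u ^ p ^ m * (x₀ ^ j)⁻¹), smul_mul_assoc, ← smul_add]
    congr 1
    rw [sub_mul, one_mul, sub_add_sub_cancel]

/-- the span of the logarithms -/
def lieSpan (p : ℕ) (U : Subgroup Γ) : Submodule E (Matrix (Fin n) (Fin n) E) :=
  Submodule.span E {Y | ∃ u ∈ U, IsLog p (ρ u : Matrix (Fin n) (Fin n) E) Y}

variable {ρ}

omit [IsTopologicalGroup Γ] [CompactSpace Γ] [TopologicalSpace Γ] in
theorem lie_closed (U : Subgroup Γ) : IsClosed (lieSpan ρ p U : Set (Matrix (Fin n) (Fin n) E)) :=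
  (lieSpan ρ p U).closed_of_finiteDimensional

omit [IsTopologicalGroup Γ] [CompactSpace Γ] [TopologicalSpace Γ] [CompleteSpace E] in
theorem val_mul (g h : Γ) : (ρ (g * h) : Matrix (Fin n) (Fin n) E) =
    (ρ g : Matrix (Fin n) (Fin n) E) * (ρ h : Matrix (Fin n) (Fin n) E) := by
  rw [map_mul, Units.val_mul]

omit [IsTopologicalGroup Γ] [CompactSpace Γ] [TopologicalSpace Γ] [CompleteSpace E] in
theorem val_mul_inv (g : Γ) : (ρ g : Matrix (Fin n) (Fin n) E) * (ρ g⁻¹ : Matrix (Fin n) (Fin n) E) = 1 := by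
  rw [← val_mul, mul_inv_cancel, map_one, Units.val_one]

omit [IsTopologicalGroup Γ] [CompactSpace Γ] [TopologicalSpace Γ] [CompleteSpace E] in
theorem val_inv_mul (g : Γ) : (ρ g⁻¹ : Matrix (Fin n) (Fin n) E) * (ρ g : Matrix (Fin n) (Fin n) E) = 1 := by
  rw [← val_mul, inv_mul_cancel, map_one, Units.val_one]

omit [IsTopologicalGroup Γ] [CompactSpace Γ] [TopologicalSpace Γ] [CompleteSpace E] in
theorem lie_conj {U : Subgroup Γ} (hU : U.Normal) (g : Γ) {X : Matrix (Fin n) (Fin n) E}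
    (hX : X ∈ lieSpan ρ p U) :
    (ρ g : Matrix (Fin n) (Fin n) E) * X * (ρ g⁻¹ : Matrix (Fin n) (Fin n) E) ∈ lieSpan ρ p U := by
  refine Submodule.span_induction (p := fun X _ =>
    (ρ g : Matrix (Fin n) (Fin n) E) * X * (ρ g⁻¹ : Matrix (Fin n) (Fin n) E) ∈ lieSpan ρ p U) ?_ ?_ ?_ ?_ hX
  · rintro Y ⟨u, hu, hY⟩
    have h1 := hY.conj (val_mul_inv (ρ := ρ) g) (val_inv_mul (ρ := ρ) g)
    rw [← val_mul, ← val_mul] at h1
    exact Submodule.subset_span ⟨g * u * g⁻¹, hU.conj_mem u hu g, h1⟩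
  · rw [mul_zero, zero_mul]
    exact Submodule.zero_mem _
  · intro X Y _ _ h h'
    rw [mul_add, add_mul]
    exact Submodule.add_mem _ h h'
  · intro c X _ h
    rw [mul_smul_comm, smul_mul_assoc]
    exact Submodule.smul_mem _ c h

omit [IsTopologicalGroup Γ] [CompactSpace Γ] [TopologicalSpace Γ] in
theorem lie_bracket {U : Subgroup Γ} (hU : U.Normal)
    (hcl : ∀ u ∈ U, Dv (rad p) ((ρ u : Matrix (Fin n) (Fin n) E) - 1)) {X Y : Matrix (Fin n) (Fin n) E}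
    (hX : X ∈ lieSpan ρ p U) (hY : Y ∈ lieSpan ρ p U) : Y * X - X * Y ∈ lieSpan ρ p U := by
  refine Submodule.span_induction (p := fun Y _ => Y * X - X * Y ∈ lieSpan ρ p U) ?_ ?_ ?_ ?_ hY
  · rintro Y ⟨u, hu, hY⟩
    obtain ⟨Y', hY'⟩ := exists_log (hcl u⁻¹ (U.inv_mem hu))
    have hpw : ∀ (g : Γ) (q : ℕ), (ρ g : Matrix (Fin n) (Fin n) E) ^ q = (ρ (g ^ q) : Matrix (Fin n) (Fin n) E) := by
      intro g q
      rw [map_pow, Units.val_pow_eq_pow_val]
    have h1 : Tendsto (fun m : ℕ => ((((p : E) ^ m)⁻¹ • ((ρ u : Matrix (Fin n) (Fin n) E) ^ p ^ m - 1)) * X -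
        X * (((p : E) ^ m)⁻¹ • ((ρ u : Matrix (Fin n) (Fin n) E) ^ p ^ m - 1))) *
          (ρ u⁻¹ : Matrix (Fin n) (Fin n) E) ^ p ^ m) atTop (𝓝 ((Y * X - X * Y) * 1)) :=
      ((hY.mul tendsto_const_nhds).sub (tendsto_const_nhds.mul hY)).mul hY'.pow_tendsto
    rw [mul_one] at h1
    refine (lie_closed (ρ := ρ) (p := p) U).mem_of_tendsto h1 (Eventually.of_forall fun m => ?_)
    have e : ((((p : E) ^ m)⁻¹ • ((ρ u : Matrix (Fin n) (Fin n) E) ^ p ^ m - 1)) * X -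
        X * (((p : E) ^ m)⁻¹ • ((ρ u : Matrix (Fin n) (Fin n) E) ^ p ^ m - 1))) *
          (ρ u⁻¹ : Matrix (Fin n) (Fin n) E) ^ p ^ m =
        ((p : E) ^ m)⁻¹ • ((ρ (u ^ p ^ m) : Matrix (Fin n) (Fin n) E) * X *
          (ρ (u ^ p ^ m)⁻¹ : Matrix (Fin n) (Fin n) E) - X) := by
      rw [smul_mul_assoc, mul_smul_comm, ← smul_sub, smul_mul_assoc, hpw, hpw, inv_pow]
      congr 1
      have e3 : ((ρ (u ^ p ^ m) : Matrix (Fin n) (Fin n) E) - 1) * X - X * ((ρ (u ^ p ^ m) : Matrix (Fin n) (Fin n) E) - 1) =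
          (ρ (u ^ p ^ m) : Matrix (Fin n) (Fin n) E) * X - X * (ρ (u ^ p ^ m) : Matrix (Fin n) (Fin n) E) := by
        rw [sub_mul, one_mul, mul_sub, mul_one, sub_sub_sub_cancel_right]
      rw [e3, sub_mul, mul_assoc X, val_mul_inv, mul_one]
    show _ ∈ lieSpan ρ p U
    rw [e]
    exact Submodule.smul_mem _ _ (Submodule.sub_mem _ (lie_conj hU _ hX) hX)
  · rw [mul_zero, zero_mul, sub_self]
    exact Submodule.zero_mem _
  · intro Y Y' _ _ h h'
    have e : (Y + Y') * X - X * (Y + Y') = (Y * X - X * Y) + (Y' * X - X * Y') := by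
      rw [mul_add, add_mul]
      abel
    rw [e]
    exact Submodule.add_mem _ h h'
  · intro c Y _ h
    rw [smul_mul_assoc, mul_smul_comm, ← smul_sub]
    exact Submodule.smul_mem _ c h

omit [IsTopologicalGroup Γ] [CompactSpace Γ] [TopologicalSpace Γ] in
theorem lie_stable {U : Subgroup Γ} (V : Submodule E (Fin n → E)) (hV : Stable ρ V)
    {X : Matrix (Fin n) (Fin n) E} (hX : X ∈ lieSpan ρ p U) : ∀ v ∈ V, X *ᵥ v ∈ V := by
  intro v hv
  have hcl : IsClosed (V : Set (Fin n → E)) := V.closed_of_finiteDimensional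
  refine Submodule.span_induction (p := fun X _ => X *ᵥ v ∈ V) ?_ ?_ ?_ ?_ hX
  · rintro Y ⟨u, hu, hY⟩
    have hc : Continuous fun X : Matrix (Fin n) (Fin n) E => X *ᵥ v :=
      Continuous.matrix_mulVec continuous_id continuous_const
    have h1 : Tendsto (fun m : ℕ => (((p : E) ^ m)⁻¹ • ((ρ u : Matrix (Fin n) (Fin n) E) ^ p ^ m - 1)) *ᵥ v) atTop
        (𝓝 (Y *ᵥ v)) := (hc.tendsto Y).comp hY
    refine hcl.mem_of_tendsto h1 (Eventually.of_forall fun m => ?_)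
    show _ ∈ V
    rw [smul_mulVec, sub_mulVec, one_mulVec]
    refine V.smul_mem _ (V.sub_mem ?_ hv)
    rw [← Units.val_pow_eq_pow_val, ← map_pow]
    exact hV _ v hv
  · rw [zero_mulVec]
    exact V.zero_mem
  · intro X Y _ _ h h'
    rw [add_mulVec]
    exact V.add_mem h h'
  · intro c X _ h
    rw [smul_mulVec]
    exact V.smul_mem c h

omit [IsTopologicalGroup Γ] [CompactSpace Γ] [TopologicalSpace Γ] in
theorem commutative_of (hss : Semisimple ρ) {U : Subgroup Γ} (hU : U.Normal)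
    (hcl : ∀ u ∈ U, Dv (rad p) ((ρ u : Matrix (Fin n) (Fin n) E) - 1)) {N : ℕ} (hN : 0 < N) (x₀ : Γ)
    (hx : ∀ u ∈ U, ∀ Y : Matrix (Fin n) (Fin n) E, (ρ (u * x₀) : Matrix (Fin n) (Fin n) E) ^ N * Y =
      Y * (ρ (u * x₀) : Matrix (Fin n) (Fin n) E) ^ N) :
    ∀ u ∈ U, ∀ w ∈ U, ρ (u * w) = ρ (w * u) := by
  haveI : CharZero E := charZero_of_injective_algebraMap (algebraMap ℚ_[p] E).injective
  set L : Submodule E (Matrix (Fin n) (Fin n) E) := lieSpan ρ p U with hL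
  have hpw : ∀ (g : Γ) (q : ℕ), (ρ g : Matrix (Fin n) (Fin n) E) ^ q = (ρ (g ^ q) : Matrix (Fin n) (Fin n) E) := by
    intro g q
    rw [map_pow, Units.val_pow_eq_pow_val]
  have hx0 : ∀ Y : Matrix (Fin n) (Fin n) E, (ρ x₀ : Matrix (Fin n) (Fin n) E) ^ N * Y =
      Y * (ρ x₀ : Matrix (Fin n) (Fin n) E) ^ N := by
    have := hx 1 U.one_mem
    rwa [one_mul] at this
  have hx0' : ∀ Y : Matrix (Fin n) (Fin n) E, (ρ (x₀ ^ N)⁻¹ : Matrix (Fin n) (Fin n) E) * Y =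
      Y * (ρ (x₀ ^ N)⁻¹ : Matrix (Fin n) (Fin n) E) := by
    intro Y
    have h1 := hx0 ((ρ (x₀ ^ N)⁻¹ : Matrix (Fin n) (Fin n) E) * Y * (ρ (x₀ ^ N)⁻¹ : Matrix (Fin n) (Fin n) E))
    rw [hpw] at h1
    have h2 : (ρ (x₀ ^ N) : Matrix (Fin n) (Fin n) E) * ((ρ (x₀ ^ N)⁻¹ : Matrix (Fin n) (Fin n) E) * Y *
        (ρ (x₀ ^ N)⁻¹ : Matrix (Fin n) (Fin n) E)) = Y * (ρ (x₀ ^ N)⁻¹ : Matrix (Fin n) (Fin n) E) := by
      rw [← mul_assoc, ← mul_assoc, val_mul_inv, one_mul]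
    have h3 : ((ρ (x₀ ^ N)⁻¹ : Matrix (Fin n) (Fin n) E) * Y * (ρ (x₀ ^ N)⁻¹ : Matrix (Fin n) (Fin n) E)) *
        (ρ (x₀ ^ N) : Matrix (Fin n) (Fin n) E) = (ρ (x₀ ^ N)⁻¹ : Matrix (Fin n) (Fin n) E) * Y := by
      rw [mul_assoc, val_inv_mul, mul_one]
    rw [h2, h3] at h1
    exact h1.symm
  have hbr : ∀ X ∈ L, ∀ Y ∈ L, X * Y - Y * X ∈ L := fun X hX Y hY => lie_bracket hU hcl hY hX
  have hsum : ∀ X ∈ L, ∀ Y : Matrix (Fin n) (Fin n) E,
      (∑ i ∈ Finset.range N, (ρ x₀ : Matrix (Fin n) (Fin n) E) ^ i * X * (ρ x₀⁻¹ : Matrix (Fin n) (Fin n) E) ^ i) * Y =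
      Y * ∑ i ∈ Finset.range N, (ρ x₀ : Matrix (Fin n) (Fin n) E) ^ i * X * (ρ x₀⁻¹ : Matrix (Fin n) (Fin n) E) ^ i := by
    intro X hX Y
    have hadd : ∀ X X' : Matrix (Fin n) (Fin n) E,
        (∑ i ∈ Finset.range N, (ρ x₀ : Matrix (Fin n) (Fin n) E) ^ i * (X + X') * (ρ x₀⁻¹ : Matrix (Fin n) (Fin n) E) ^ i) =
        (∑ i ∈ Finset.range N, (ρ x₀ : Matrix (Fin n) (Fin n) E) ^ i * X * (ρ x₀⁻¹ : Matrix (Fin n) (Fin n) E) ^ i) +
        ∑ i ∈ Finset.range N, (ρ x₀ : Matrix (Fin n) (Fin n) E) ^ i * X' * (ρ x₀⁻¹ : Matrix (Fin n) (Fin n) E) ^ i := by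
      intro X X'
      rw [← Finset.sum_add_distrib]
      refine Finset.sum_congr rfl fun i _ => ?_
      rw [mul_add, add_mul]
    have hsm : ∀ (c : E) (X : Matrix (Fin n) (Fin n) E),
        (∑ i ∈ Finset.range N, (ρ x₀ : Matrix (Fin n) (Fin n) E) ^ i * (c • X) * (ρ x₀⁻¹ : Matrix (Fin n) (Fin n) E) ^ i) =
        c • (∑ i ∈ Finset.range N, (ρ x₀ : Matrix (Fin n) (Fin n) E) ^ i * X * (ρ x₀⁻¹ : Matrix (Fin n) (Fin n) E) ^ i) := by
      intro c X
      rw [Finset.smul_sum]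
      refine Finset.sum_congr rfl fun i _ => ?_
      rw [mul_smul_comm, smul_mul_assoc]
    refine Submodule.span_induction (p := fun X _ =>
      (∑ i ∈ Finset.range N, (ρ x₀ : Matrix (Fin n) (Fin n) E) ^ i * X * (ρ x₀⁻¹ : Matrix (Fin n) (Fin n) E) ^ i) * Y =
      Y * ∑ i ∈ Finset.range N, (ρ x₀ : Matrix (Fin n) (Fin n) E) ^ i * X * (ρ x₀⁻¹ : Matrix (Fin n) (Fin n) E) ^ i)
      ?_ ?_ ?_ ?_ hX
    · rintro X ⟨u, hu, hlog⟩
      have h1 := prod_log ρ (x₀ := x₀) hlog N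
      have e : ∑ i ∈ Finset.range N, (ρ (x₀ ^ i) : Matrix (Fin n) (Fin n) E) * X * (ρ (x₀ ^ i)⁻¹ : Matrix (Fin n) (Fin n) E) =
          ∑ i ∈ Finset.range N, (ρ x₀ : Matrix (Fin n) (Fin n) E) ^ i * X * (ρ x₀⁻¹ : Matrix (Fin n) (Fin n) E) ^ i := by
        refine Finset.sum_congr rfl fun i _ => ?_
        rw [hpw, hpw, inv_pow]
      rw [e] at h1
      refine tendsto_nhds_unique (h1.mul tendsto_const_nhds) ((tendsto_const_nhds.mul h1).congr fun m => ?_)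
      rw [smul_mul_assoc, mul_smul_comm, val_mul, mul_sub, sub_mul, one_mul, mul_one]
      congr 2
      rw [← hpw (u ^ p ^ m * x₀) N, mul_assoc, hx0', ← mul_assoc Y, ← hx _ (U.pow_mem hu _), mul_assoc]
    · have : (∑ i ∈ Finset.range N, (ρ x₀ : Matrix (Fin n) (Fin n) E) ^ i * (0 : Matrix (Fin n) (Fin n) E) *
          (ρ x₀⁻¹ : Matrix (Fin n) (Fin n) E) ^ i) = 0 :=
        Finset.sum_eq_zero fun i _ => by rw [mul_zero, zero_mul]
      rw [this, mul_zero, zero_mul]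
    · intro X X' _ _ h h'
      rw [hadd, add_mul, mul_add, h, h']
    · intro c X _ h
      rw [hsm, smul_mul_assoc, mul_smul_comm, h]
  -- the kernel of the brackets
  let V₁ : Submodule E (Fin n → E) :=
    { carrier := {v | ∀ X ∈ L, ∀ Y ∈ L, (X * Y - Y * X) *ᵥ v = 0}
      add_mem' := fun {v w} hv hw X hX Y hY => by rw [mulVec_add, hv X hX Y hY, hw X hX Y hY, add_zero]
      zero_mem' := fun X _ Y _ => mulVec_zero _
      smul_mem' := fun c v hv X hX Y hY => by rw [mulVec_smul, hv X hX Y hY, smul_zero] }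
  have hV₁ : Stable ρ V₁ := by
    intro g v hv X hX Y hY
    have h1 : ∀ X : Matrix (Fin n) (Fin n) E, X * (ρ g : Matrix (Fin n) (Fin n) E) =
        (ρ g : Matrix (Fin n) (Fin n) E) * ((ρ g⁻¹ : Matrix (Fin n) (Fin n) E) * X * (ρ g : Matrix (Fin n) (Fin n) E)) := by
      intro X
      rw [← mul_assoc, ← mul_assoc, val_mul_inv, one_mul]
    have h2 : ∀ X ∈ L, (ρ g⁻¹ : Matrix (Fin n) (Fin n) E) * X * (ρ g : Matrix (Fin n) (Fin n) E) ∈ L := by
      intro X hX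
      have := lie_conj hU g⁻¹ hX
      rwa [inv_inv] at this
    have h3 := hv _ (h2 X hX) _ (h2 Y hY)
    rw [mulVec_mulVec]
    have e : (X * Y - Y * X) * (ρ g : Matrix (Fin n) (Fin n) E) = (ρ g : Matrix (Fin n) (Fin n) E) *
        (((ρ g⁻¹ : Matrix (Fin n) (Fin n) E) * X * (ρ g : Matrix (Fin n) (Fin n) E)) *
          ((ρ g⁻¹ : Matrix (Fin n) (Fin n) E) * Y * (ρ g : Matrix (Fin n) (Fin n) E)) -
        ((ρ g⁻¹ : Matrix (Fin n) (Fin n) E) * Y * (ρ g : Matrix (Fin n) (Fin n) E)) *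
          ((ρ g⁻¹ : Matrix (Fin n) (Fin n) E) * X * (ρ g : Matrix (Fin n) (Fin n) E))) := by
      rw [mul_sub, ← mul_assoc _ _ ((ρ g⁻¹ : Matrix (Fin n) (Fin n) E) * Y * (ρ g : Matrix (Fin n) (Fin n) E)), ← h1,
        ← mul_assoc _ _ ((ρ g⁻¹ : Matrix (Fin n) (Fin n) E) * X * (ρ g : Matrix (Fin n) (Fin n) E)), ← h1,
        mul_assoc, ← h1, mul_assoc, ← h1, sub_mul, mul_assoc, mul_assoc]
    rw [e, ← mulVec_mulVec, h3, mulVec_zero]
  obtain ⟨V₂, hV₂, hc⟩ := hss V₁ hV₁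
  have hbot : V₂ = ⊥ := by
    by_contra hne
    obtain ⟨v, hv, hv0, hker⟩ := common L hbr (ρ x₀ : Matrix (Fin n) (Fin n) E) (ρ x₀⁻¹ : Matrix (Fin n) (Fin n) E)
      (val_mul_inv x₀) (val_inv_mul x₀) (fun X hX => lie_conj hU x₀ hX) hN (fun X _ => hx0 X)
      (fun X hX Y _ => hsum X hX Y) V₂ hne (fun X hX v hv => lie_stable V₂ hV₂ hX v hv)
    exact hv0 (Submodule.disjoint_def.1 hc.disjoint v hker hv)
  have htop : V₁ = ⊤ := by
    have := hc.sup_eq_top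
    rwa [hbot, sup_bot_eq] at this
  have hcomm : ∀ X ∈ L, ∀ Y ∈ L, X * Y = Y * X := by
    intro X hX Y hY
    rw [← sub_eq_zero]
    apply Matrix.toLin'.injective
    apply LinearMap.ext
    intro v
    have hv : v ∈ V₁ := by rw [htop]; trivial
    rw [Matrix.toLin'_apply, hv X hX Y hY, map_zero, LinearMap.zero_apply]
  intro u hu w hw
  obtain ⟨Y, hY⟩ := exists_log (hcl u hu)
  obtain ⟨Z, hZ⟩ := exists_log (hcl w hw)
  have hYL : Y ∈ L := Submodule.subset_span ⟨u, hu, hY⟩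
  have hZL : Z ∈ L := Submodule.subset_span ⟨w, hw, hZ⟩
  have h1 := comm_of_log (hcl u hu) hY (hcomm Y hYL Z hZL)
  have h2 := comm_of_log (hcl w hw) hZ h1.symm
  apply Units.ext
  rw [val_mul, val_mul, h2]

end group

end Pool.Agent.X320.KR
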