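import Pool.Agent.X320.KR.Main
import Pool.Agent.X320.DS.Pos

/-! The theorem for Galois representations. -/

set_option autoImplicit false
set_option linter.all false

namespace Pool.Agent.X320.KR

open Filter Topology MeasureTheory Matrix NumberField IsDedekindDomain
open Pool.Agent.W401.Cheb Pool.Agent.X320.DS Pool.Agent.X320.RU

section group

variable {Γ : Type*} [Group Γ] [TopologicalSpace Γ] [IsTopologicalGroup Γ] [CompactSpace Γ] [T2Space Γ]
  [TotallyDisconnectedSpace Γ] {p : ℕ} [hp : Fact p.Prime] {E : Type*} [NontriviallyNormedField E] [CompleteSpace E]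
  [IsUltrametricDist E] [NormedAlgebra ℚ_[p] E] {n : ℕ} (ρ : Γ →* GL (Fin n) E)

/-- the equations of the set of the elements whose `N`-th power is scalar -/
def eqs (N : ℕ) : Set (Γ → E) :=
  {f | (∃ a b, a ≠ b ∧ f = fun x => ((ρ x : Matrix (Fin n) (Fin n) E) ^ N) a b) ∨
    ∃ a b, f = (fun x => ((ρ x : Matrix (Fin n) (Fin n) E) ^ N) a a) -
      fun x => ((ρ x : Matrix (Fin n) (Fin n) E) ^ N) b b}

omit [IsTopologicalGroup Γ] [CompactSpace Γ] [TopologicalSpace Γ] [CompleteSpace E] [T2Space Γ]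
  [TotallyDisconnectedSpace Γ] [IsUltrametricDist E] [NormedAlgebra ℚ_[p] E] in
theorem eqs_iff (N : ℕ) (x : Γ) : (∀ f ∈ eqs ρ N, f x = 0) ↔ Scal ((ρ x : Matrix (Fin n) (Fin n) E) ^ N) := by
  constructor
  · intro h
    refine ⟨fun a b hab => h _ (Or.inl ⟨a, b, hab, rfl⟩), fun a b => ?_⟩
    have := h _ (Or.inr ⟨a, b, rfl⟩)
    exact sub_eq_zero.1 this
  · rintro ⟨h1, h2⟩ f (⟨a, b, hab, rfl⟩ | ⟨a, b, rfl⟩)
    · exact h1 a b hab
    · exact sub_eq_zero.2 (h2 a b)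

omit [IsTopologicalGroup Γ] [CompactSpace Γ] [TopologicalSpace Γ] [CompleteSpace E] [T2Space Γ]
  [TotallyDisconnectedSpace Γ] [IsUltrametricDist E] [NormedAlgebra ℚ_[p] E] in
theorem eqs_mem (W : Subgroup Γ) (N : ℕ) : ∀ f ∈ eqs ρ N, f ∈ fn ρ W := by
  rintro f (⟨a, b, hab, rfl⟩ | ⟨a, b, rfl⟩)
  · exact pow_mem ρ W N a b
  · exact (fn ρ W).sub_mem (pow_mem ρ W N a a) (pow_mem ρ W N b b)

/-- close to one on an open normal subgroup -/
theorem exists_close (hρ : Continuous ρ) : ∃ W : Subgroup Γ, W.Normal ∧ IsOpen (W : Set Γ) ∧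
    ∀ u ∈ W, Dv (rad p) ((ρ u : Matrix (Fin n) (Fin n) E) - 1) := by
  have hopen : IsOpen {g : Γ | ∀ i j, ‖((ρ g : Matrix (Fin n) (Fin n) E) - 1) i j‖ < rad p} := by
    have e : {g : Γ | ∀ i j, ‖((ρ g : Matrix (Fin n) (Fin n) E) - 1) i j‖ < rad p} =
        ⋂ i, ⋂ j, {g : Γ | ‖((ρ g : Matrix (Fin n) (Fin n) E) - 1) i j‖ < rad p} := by
      ext g
      simp
    rw [e]
    refine isOpen_iInter_of_finite fun i => isOpen_iInter_of_finite fun j => ?_
    have h1 : Continuous fun g : Γ => ((ρ g : Matrix (Fin n) (Fin n) E) - 1) i j := by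
      have h2 : Continuous fun g : Γ => (ρ g : Matrix (Fin n) (Fin n) E) := Units.continuous_val.comp hρ
      exact (h2.sub continuous_const).matrix_elem i j
    exact isOpen_lt h1.norm continuous_const
  have hone : (1 : Γ) ∈ {g : Γ | ∀ i j, ‖((ρ g : Matrix (Fin n) (Fin n) E) - 1) i j‖ < rad p} := by
    intro i j
    rw [map_one, Units.val_one, sub_self, Matrix.zero_apply, norm_zero]
    exact rad_pos
  obtain ⟨U, hU⟩ := ProfiniteGrp.exist_openNormalSubgroup_sub_open_nhds_of_one hopen hone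
  exact ⟨U.toSubgroup, U.isNormal', U.isOpen', fun u hu i j => (hU hu i j).le⟩

include hp in
/-- **The group theorem.** A positive proportion of elements with a scalar power: potentially abelian. -/
theorem group_main [MeasurableSpace Γ] [BorelSpace Γ] (μ : Measure Γ) [IsProbabilityMeasure μ]
    [μ.IsMulLeftInvariant] (hρ : Continuous ρ) (hss : Semisimple ρ) {N : ℕ} (hN : 0 < N)
    (hμ : μ {x | Scal ((ρ x : Matrix (Fin n) (Fin n) E) ^ N)} ≠ 0) :
    ∃ U : Subgroup Γ, U.Normal ∧ IsOpen (U : Set Γ) ∧ ∀ u ∈ U, ∀ w ∈ U, ρ (u * w) = ρ (w * u) := by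
  obtain ⟨W, hWn, hWo, hW⟩ := exists_close (p := p) ρ hρ
  haveI : Finite (Γ ⧸ W) := Subgroup.quotient_finite_of_isOpen _ hWo
  haveI := noeth ρ W
  have e : {x | Scal ((ρ x : Matrix (Fin n) (Fin n) E) ^ N)} = {x | ∀ f ∈ eqs ρ N, f x = 0} := by
    ext x
    exact (eqs_iff ρ N x).symm
  rw [e] at hμ
  obtain ⟨H, hH, x₀, hx₀⟩ := exists_coset μ (fn ρ W)
    (fun f hf => isClosed_singleton.preimage (cont_mem ρ hWo hρ f hf))
    (fun g f hf => trans_mem ρ W g f hf) (eqs ρ N) (eqs_mem ρ W N) hμ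
  have hHW : IsOpen ((H : Set Γ) ∩ W) := hH.inter hWo
  obtain ⟨U, hU⟩ := ProfiniteGrp.exist_openNormalSubgroup_sub_open_nhds_of_one hHW ⟨H.one_mem, W.one_mem⟩
  refine ⟨U.toSubgroup, U.isNormal', U.isOpen', ?_⟩
  exact commutative_of (p := p) hss U.isNormal' (fun u hu => hW u (hU hu).2) hN x₀
    (fun u hu Y => scal_comm ((eqs_iff ρ N _).1 (hx₀ u (hU hu).1)) Y)

omit [IsTopologicalGroup Γ] [CompactSpace Γ] [TopologicalSpace Γ] [CompleteSpace E] [T2Space Γ]
  [TotallyDisconnectedSpace Γ] in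
/-- the exponent -/
theorem scal_of {W : Subgroup Γ} (hW : ∀ u ∈ W, Dv (rad p) ((ρ u : Matrix (Fin n) (Fin n) E) - 1)) {N : ℕ} {g : Γ}
    (hg : g ^ N ∈ W) (h : PowerScalar (ρ g : Matrix (Fin n) (Fin n) E)) :
    Scal ((ρ g : Matrix (Fin n) (Fin n) E) ^ N) := by
  obtain ⟨a, ha, c, hc⟩ := h
  refine comm_scal fun y => ?_
  have hpw : ∀ q : ℕ, (ρ g : Matrix (Fin n) (Fin n) E) ^ q = (ρ (g ^ q) : Matrix (Fin n) (Fin n) E) := by
    intro q
    rw [map_pow, Units.val_pow_eq_pow_val]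
  refine comm_of_pow (rad_pos (p := p)).le (rad_le_one (p := p)) (fun q hq => rad_prime hq) a _ ha ?_ ?_
  · rw [hpw]
    exact hW _ hg
  · rw [← pow_mul, mul_comm N a, pow_mul, hc, smul_pow, one_pow, smul_mul_assoc, mul_smul_comm, one_mul, mul_one]

omit [IsTopologicalGroup Γ] [CompactSpace Γ] [TopologicalSpace Γ] [CompleteSpace E] [T2Space Γ]
  [TotallyDisconnectedSpace Γ] in
theorem powerScalar_inv {g : Γ} (h : PowerScalar (ρ g : Matrix (Fin n) (Fin n) E)) :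
    PowerScalar (ρ g⁻¹ : Matrix (Fin n) (Fin n) E) := by
  obtain ⟨a, ha, c, hc⟩ := h
  have hpw : ∀ (g : Γ) (q : ℕ), (ρ g : Matrix (Fin n) (Fin n) E) ^ q = (ρ (g ^ q) : Matrix (Fin n) (Fin n) E) := by
    intro g q
    rw [map_pow, Units.val_pow_eq_pow_val]
  have h1 : (ρ (g ^ a) : Matrix (Fin n) (Fin n) E) * (ρ (g ^ a)⁻¹ : Matrix (Fin n) (Fin n) E) = 1 :=
    val_mul_inv (ρ := ρ) (g ^ a)
  refine ⟨a, ha, c⁻¹, ?_⟩
  rw [hpw, inv_pow]
  rw [← hpw, hc, smul_mul_assoc, one_mul] at h1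
  rcases eq_or_ne c 0 with rfl | hc0
  · rw [zero_smul] at h1
    rw [_root_.inv_zero, zero_smul]
    have h2 : (ρ (g ^ a)⁻¹ : Matrix (Fin n) (Fin n) E) = (ρ (g ^ a)⁻¹ : Matrix (Fin n) (Fin n) E) * 1 := (mul_one _).symm
    rw [h2, ← h1, mul_zero]
  · rw [← h1, smul_smul, inv_mul_cancel₀ hc0, one_smul]

end group

section galois

variable {K : Type} [Field K] [NumberField K] {p : ℕ} [hp : Fact p.Prime] {E : Type*} [NontriviallyNormedField E]
  [CompleteSpace E] [IsUltrametricDist E] [NormedAlgebra ℚ_[p] E] {n : ℕ}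

include hp in
theorem potentially_abelian (ρ : GK K →* GL (Fin n) E) (hρ : Continuous ρ) (hss : Semisimple ρ)
    (Good : HeightOneSpectrum (𝓞 K) → Prop) {δ : ℝ} (hδ : 0 < δ) (hG : ∃ᶠ M in atTop, δ ≤ dens Good M)
    (hiso : ∀ v, Good v → ∀ σ, IsFrob v σ → PowerScalar (ρ σ : Matrix (Fin n) (Fin n) E)) :
    ∃ U : Subgroup (GK K), U.Normal ∧ IsOpen (U : Set (GK K)) ∧ ∀ u ∈ U, ∀ w ∈ U, ρ (u * w) = ρ (w * u) := by
  classical
  letI : MeasurableSpace (GK K) := borel _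
  haveI : BorelSpace (GK K) := ⟨rfl⟩
  set μ : Measure (GK K) := Measure.haarMeasure (⊤ : TopologicalSpace.PositiveCompacts (GK K)) with hμ
  haveI : IsProbabilityMeasure μ := ⟨by
    have := Measure.haarMeasure_self (K₀ := (⊤ : TopologicalSpace.PositiveCompacts (GK K)))
    rw [hμ]
    rwa [TopologicalSpace.PositiveCompacts.coe_top] at this⟩
  obtain ⟨W, hWn, hWo, hW⟩ := exists_close (p := p) ρ hρ
  haveI := hWn
  haveI : Finite (GK K ⧸ W) := Subgroup.quotient_finite_of_isOpen _ hWo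
  have hN : 0 < W.index := Nat.pos_of_ne_zero Subgroup.index_ne_zero_of_finite
  have hZc : IsClosed {x | Scal ((ρ x : Matrix (Fin n) (Fin n) E) ^ W.index)} := by
    have e : {x | Scal ((ρ x : Matrix (Fin n) (Fin n) E) ^ W.index)} = ⋂ f : eqs ρ W.index, {x | f.1 x = 0} := by
      ext x
      rw [Set.mem_ofPred_eq, ← eqs_iff]
      simp
    rw [e]
    exact isClosed_iInter fun f => isClosed_singleton.preimage (cont_mem ρ hWo hρ f.1 (eqs_mem ρ W _ f.1 f.2))
  have h1 := measure_ge_freq μ Good hG _ hZc (fun v hv σ hσ =>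
    scal_of (p := p) ρ hW (Subgroup.pow_index_mem _ _) (powerScalar_inv ρ (hiso v hv σ hσ)))
  refine group_main (p := p) ρ μ hρ hss hN fun h => ?_
  rw [h] at h1
  have := ENNReal.ofReal_eq_zero.1 (le_antisymm h1 bot_le)
  linarith

end galois

end Pool.Agent.X320.KR
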