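import Pool.Agent.X320.KR.PCore
import Pool.Agent.X320.RU.Types

/-! Potentially scalar representations of compact groups. -/

set_option autoImplicit false
set_option linter.all false

namespace Pool.Agent.X320.KR

open Module MeasureTheory Topology Pool.Agent.X320.DS Pool.Agent.X320.RU

section fnlem

variable {G : Type*} [Group G] [TopologicalSpace G] [IsTopologicalGroup G] [CompactSpace G] [MeasurableSpace G]
  [BorelSpace G] {k : Type*} [Field k] [TopologicalSpace k] [IsTopologicalRing k] [T2Space k] {n : ℕ}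
  (ρ : G →* GL (Fin n) k)

omit [TopologicalSpace G] [IsTopologicalGroup G] [CompactSpace G] [MeasurableSpace G] [BorelSpace G]
  [TopologicalSpace k] [IsTopologicalRing k] [T2Space k] in
theorem det_mem (W : Subgroup G) : (fun x => (ρ x : Matrix (Fin n) (Fin n) k).det) ∈ fn ρ W := by
  have e : (fun x => (ρ x : Matrix (Fin n) (Fin n) k).det) =
      ∑ σ : Equiv.Perm (Fin n), algebraMap k (G → k) ((Equiv.Perm.sign σ : ℤ) : k) *
        ∏ i, (fun x => (ρ x : Matrix (Fin n) (Fin n) k) (σ i) i) := by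
    funext x
    rw [Matrix.det_apply', Finset.sum_apply]
    refine Finset.sum_congr rfl fun σ _ => ?_
    rw [Pi.mul_apply, Finset.prod_apply]
    rfl
  rw [e]
  exact Subalgebra.sum_mem _ fun σ _ => (fn ρ W).mul_mem ((fn ρ W).algebraMap_mem _)
    (Subalgebra.prod_mem _ fun i _ => Algebra.subset_adjoin (Or.inl ⟨_, _, rfl⟩))

theorem exists_coset_fn (μ : Measure G) [IsProbabilityMeasure μ]
    [μ.IsMulLeftInvariant] {W : Subgroup G} (hW : IsOpen (W : Set G)) (hρ : Continuous ρ)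
    (Φ : G → k) (hΦ : Φ ∈ fn ρ W) (h : μ {x | x ∈ W ∧ Φ x = 0} ≠ 0) :
    ∃ H : Subgroup G, IsOpen (H : Set G) ∧ H ≤ W ∧ ∃ x₀ ∈ W, ∀ h ∈ H, Φ (h * x₀) = 0 := by
  classical
  haveI : Finite (G ⧸ W) := Subgroup.quotient_finite_of_isOpen _ hW
  haveI := noeth ρ W
  let I : G → k := Set.indicator {x | (QuotientGroup.mk x : G ⧸ W) = QuotientGroup.mk 1} 1
  have hI : I ∈ fn ρ W := Algebra.subset_adjoin (Or.inr ⟨_, rfl⟩)
  have hI0 : ∀ x, (1 - I) x = 0 ↔ x ∈ W := by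
    intro x
    have hiff : (QuotientGroup.mk x : G ⧸ W) = QuotientGroup.mk 1 ↔ x ∈ W := by
      rw [eq_comm, QuotientGroup.eq, inv_one, one_mul]
    by_cases hx : x ∈ W
    · have : I x = 1 := by
        show (Set.indicator {x | (QuotientGroup.mk x : G ⧸ W) = QuotientGroup.mk 1} 1 : G → k) x = 1
        rw [Set.indicator_of_mem (show x ∈ {x | (QuotientGroup.mk x : G ⧸ W) = QuotientGroup.mk 1} from hiff.2 hx)]
        rfl
      rw [Pi.sub_apply, this]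
      simp [hx]
    · have : I x = 0 := by
        show (Set.indicator {x | (QuotientGroup.mk x : G ⧸ W) = QuotientGroup.mk 1} 1 : G → k) x = 0
        rw [Set.indicator_of_notMem (show x ∉ {x | (QuotientGroup.mk x : G ⧸ W) = QuotientGroup.mk 1} from
          fun h => hx (hiff.1 h))]
      rw [Pi.sub_apply, this]
      simp [hx]
  obtain ⟨H, hH, x₀, hx₀⟩ := exists_coset μ (fn ρ W) (fun f hf => isClosed_singleton.preimage (cont_mem ρ hW hρ f hf))
    (fun g f hf => trans_mem ρ W g f hf) {Φ, 1 - I} (by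
      rintro f (rfl | rfl)
      · exact hΦ
      · exact (fn ρ W).sub_mem (fn ρ W).one_mem hI) (by
      have e : {x | ∀ f ∈ ({Φ, 1 - I} : Set (G → k)), f x = 0} = {x | x ∈ W ∧ Φ x = 0} := by
        ext x
        constructor
        · intro hx
          exact ⟨(hI0 x).1 (hx _ (Or.inr rfl)), hx _ (Or.inl rfl)⟩
        · rintro ⟨h1, h2⟩ f (rfl | rfl)
          · exact h2
          · exact (hI0 x).2 h1
      rw [e]
      exact h)
  have hxW : ∀ h ∈ H, h * x₀ ∈ W := fun h hh => (hI0 _).1 (hx₀ h hh _ (Or.inr rfl))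
  have hx₀W : x₀ ∈ W := by
    have := hxW 1 H.one_mem
    rwa [one_mul] at this
  refine ⟨H, hH, fun h hh => ?_, x₀, hx₀W, fun h hh => hx₀ h hh _ (Or.inl rfl)⟩
  have := W.mul_mem (hxW h hh) (W.inv_mem hx₀W)
  rwa [mul_assoc, mul_inv_cancel, mul_one] at this

end fnlem

section near

variable {Γ : Type*} [Group Γ] {ℓ : ℕ} [Fact ℓ.Prime] {n : ℕ} (ρ : Γ →* GL (Fin n) (PadicAlgCl ℓ))

/-- the root of the determinant near one -/
def Near (N : ℕ) (h : Γ) (z : PadicAlgCl ℓ) : Prop :=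
  z ^ (N * n) = (ρ h : Matrix (Fin n) (Fin n) (PadicAlgCl ℓ)).det ^ N ∧ ‖z - 1‖ < (ℓ : ℝ)⁻¹

theorem l_lt : (ℓ : ℝ)⁻¹ < 1 := by
  have h : (1 : ℝ) < ℓ := by exact_mod_cast (Fact.out : ℓ.Prime).one_lt
  exact inv_lt_one_of_one_lt₀ h

theorem norm_near {z : PadicAlgCl ℓ} (h : ‖z - 1‖ < (ℓ : ℝ)⁻¹) : ‖z‖ = 1 := by
  have h1 : ‖z - 1‖ < 1 := h.trans (l_lt (ℓ := ℓ))
  have e : z = (z - 1) + 1 := by ring
  have h2 : ‖z - 1‖ ≠ ‖(1 : PadicAlgCl ℓ)‖ := by
    rw [norm_one]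
    exact h1.ne
  rw [e, IsUltrametricDist.norm_add_eq_max_of_norm_ne_norm h2, norm_one]
  exact max_eq_right h1.le

theorem near_mul {z z' : PadicAlgCl ℓ} (h : ‖z - 1‖ < (ℓ : ℝ)⁻¹) (h' : ‖z' - 1‖ < (ℓ : ℝ)⁻¹) :
    ‖z * z' - 1‖ < (ℓ : ℝ)⁻¹ := by
  have e : z * z' - 1 = z * (z' - 1) + (z - 1) := by ring
  rw [e]
  refine (IsUltrametricDist.norm_add_le_max _ _).trans_lt (max_lt ?_ h)
  rw [norm_mul, norm_near h, one_mul]
  exact h'

theorem near_unique {m : ℕ} (hm : 0 < m) {z z' : PadicAlgCl ℓ} (h : ‖z - 1‖ < (ℓ : ℝ)⁻¹) (h' : ‖z' - 1‖ < (ℓ : ℝ)⁻¹)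
    (he : z ^ m = z' ^ m) : z = z' := by
  have hz' : z' ≠ 0 := by
    rintro rfl
    have := norm_near h'
    rw [norm_zero] at this
    exact zero_ne_one this
  have h1 : (z / z') ^ m = 1 := by
    rw [div_pow, he, div_self (pow_ne_zero m hz')]
  have h2 : ‖z / z' - 1‖ < (ℓ : ℝ)⁻¹ := by
    have e : z / z' - 1 = (z - z') / z' := by
      field_simp
    rw [e, norm_div, norm_near h', div_one]
    have e2 : z - z' = (z - 1) + -(z' - 1) := by ring
    rw [e2]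
    refine (IsUltrametricDist.norm_add_le_max _ _).trans_lt (max_lt h ?_)
    rw [norm_neg]
    exact h'
  have h3 := close_one hm h1 h2
  rwa [div_eq_one_iff_eq hz'] at h3

end near

section group

variable {Γ : Type*} [Group Γ] [TopologicalSpace Γ] [IsTopologicalGroup Γ] [CompactSpace Γ] [T2Space Γ]
  [TotallyDisconnectedSpace Γ] [MeasurableSpace Γ] [BorelSpace Γ] (μ : Measure Γ) [IsProbabilityMeasure μ]
  [μ.IsMulLeftInvariant] {ℓ : ℕ} [Fact ℓ.Prime] {n : ℕ} (ρ : Γ →* GL (Fin n) (PadicAlgCl ℓ))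

theorem scal_simple (hρ : Continuous ρ) {N : ℕ} (hN : 0 < N) (hn : 0 < n) (Z : Set Γ)
    (hZ : ∀ g ∈ Z, ∀ a b, (toEnd ρ g).HasEigenvalue a → (toEnd ρ g).HasEigenvalue b → a ^ N = b ^ N)
    (W : Subgroup Γ) [W.Normal] (hW : IsOpen (W : Set Γ))
    (hmin : ∀ H : Subgroup Γ, H ≤ W → IsOpen (H : Set Γ) → algOn ρ H = algOn ρ W)
    (S : Submodule (AR ρ W) (Fin n → PadicAlgCl ℓ)) [IsSimpleModule (AR ρ W) S]
    (hpos : μ (Z ∩ (stab (cr ρ W) S : Set Γ)) ≠ 0) :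
    ∃ (H : Subgroup Γ) (f : Γ → PadicAlgCl ℓ), IsOpen (H : Set Γ) ∧ ∀ h ∈ H, Near ρ N h (f h) ∧
      ∀ s ∈ S, toEnd ρ h s = f h • s := by
  classical
  haveI : Finite (Γ ⧸ W) := Subgroup.quotient_finite_of_isOpen _ hW
  have hle : W ≤ stab (cr ρ W) S := fun w hw =>
    mem_stab (TT ρ) (cr ρ W) (TT_smul ρ W) S w (rr ρ W ⟨w, hw⟩) (rr ρ W ⟨w⁻¹, W.inv_mem hw⟩)
      (fun v => rfl) (fun v => rfl)
  -- a coset
  obtain ⟨g, hg, hgμ⟩ : ∃ g ∈ stab (cr ρ W) S, μ {w | w ∈ W ∧ g * w ∈ Z} ≠ 0 := by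
    by_contra hcon
    push Not at hcon
    apply hpos
    refine measure_mono_null (t := ⋃ q : Γ ⧸ W, {x | x ∈ Z ∧ x ∈ stab (cr ρ W) S ∧ (QuotientGroup.mk x : Γ ⧸ W) = q})
      (fun x hx => Set.mem_iUnion.2 ⟨QuotientGroup.mk x, hx.1, hx.2, rfl⟩) ?_
    rw [measure_iUnion_null_iff]
    intro q
    by_cases hq : q.out ∈ stab (cr ρ W) S
    · have h1 := hcon q.out hq
      rw [← measure_preimage_mul μ q.out]
      refine measure_mono_null ?_ h1
      rintro w ⟨hw1, hw2, hw3⟩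
      refine ⟨?_, hw1⟩
      have h2 : (QuotientGroup.mk q.out : Γ ⧸ W) = QuotientGroup.mk (q.out * w) := by
        rw [QuotientGroup.out_eq']
        exact hw3.symm
      have h3 := QuotientGroup.eq.1 h2
      rwa [inv_mul_cancel_left] at h3
    · refine measure_mono_null (t := ∅) ?_ measure_empty
      rintro x ⟨hx1, hx2, hx3⟩
      apply hq
      have h2 : (QuotientGroup.mk x : Γ ⧸ W) = QuotientGroup.mk q.out := by
        rw [QuotientGroup.out_eq', hx3]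
      have h3 := QuotientGroup.eq.1 h2
      have h4 := (stab (cr ρ W) S).mul_mem hx2 (hle h3)
      rwa [mul_inv_cancel_left] at h4
  obtain ⟨L, X, hX, hL1, hL3, hL2⟩ := core_proj (TT ρ) (cr ρ W) (TT_smul ρ W) W (rr ρ W) (rr_smul ρ W) S hg hN
  rw [finrank_fin_fun] at hL1
  set C₀ : PadicAlgCl ℓ := (ρ g : Matrix (Fin n) (Fin n) (PadicAlgCl ℓ)).det ^ N with hC₀
  have hdet : ∀ w, LinearMap.det (toEnd ρ (g * w)) ^ N = C₀ * (ρ w : Matrix (Fin n) (Fin n) (PadicAlgCl ℓ)).det ^ N := by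
    intro w
    have e : LinearMap.det (toEnd ρ (g * w)) = (ρ (g * w) : Matrix (Fin n) (Fin n) (PadicAlgCl ℓ)).det :=
      LinearMap.det_toLin' _
    rw [e, map_mul, Units.val_mul, Matrix.det_mul, mul_pow]
  -- a value
  obtain ⟨c, hc⟩ : ∃ c : PadicAlgCl ℓ, μ {x | x ∈ W ∧ L (toEnd ρ x) ^ (N * n) -
      c * (ρ x : Matrix (Fin n) (Fin n) (PadicAlgCl ℓ)).det ^ N = 0} ≠ 0 := by
    by_contra hcon
    push Not at hcon
    apply hgμ
    haveI : Finite X := hX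
    refine measure_mono_null (t := ⋃ c : X, {x | x ∈ W ∧ L (toEnd ρ x) ^ (N * n) -
      (c.1 * C₀) * (ρ x : Matrix (Fin n) (Fin n) (PadicAlgCl ℓ)).det ^ N = 0}) ?_
      ((measure_iUnion_null_iff).2 fun c => hcon (c.1 * C₀))
    rintro w ⟨hw1, hw2⟩
    obtain ⟨x, hx, hxe⟩ := hL1 w hw1 (hZ (g * w) hw2)
    refine Set.mem_iUnion.2 ⟨⟨x, hx⟩, hw1, ?_⟩
    rw [sub_eq_zero]
    have h1 : L (toEnd ρ w) ^ (N * n) = x * LinearMap.det (toEnd ρ (g * w)) ^ N := hxe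
    rw [h1, hdet, mul_assoc]
  obtain ⟨H₀, hH₀, hH₀W, x₀, hx₀, hΦ⟩ := exists_coset_fn ρ μ hW hρ
    (fun x => L (toEnd ρ x) ^ (N * n) - c * (ρ x : Matrix (Fin n) (Fin n) (PadicAlgCl ℓ)).det ^ N)
    ((fn ρ W).sub_mem ((fn ρ W).pow_mem (functional_mem ρ W L) _)
      ((fn ρ W).mul_mem ((fn ρ W).algebraMap_mem c) ((fn ρ W).pow_mem (det_mem ρ W) _))) hc
  have hspan : ∀ (H : Subgroup Γ) (hHW : H ≤ W), IsOpen (H : Set Γ) →
      ∀ a : AR ρ W, a ∈ Submodule.span (PadicAlgCl ℓ) {b : AR ρ W | ∃ (h : Γ) (hh : h ∈ H), b = rr ρ W ⟨h, hHW hh⟩} := by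
    intro H hHW hH a
    have h1 : val ρ a ∈ Subalgebra.toSubmodule (algOn ρ H) := by
      rw [hmin H hHW hH]
      exact val_mem ρ a
    rw [algOn_span] at h1
    let vl : AR ρ W →ₗ[PadicAlgCl ℓ] End (PadicAlgCl ℓ) (Fin n → PadicAlgCl ℓ) := (algOn ρ W).val.toLinearMap
    have h2 : (Submodule.span (PadicAlgCl ℓ) {b : AR ρ W | ∃ (h : Γ) (hh : h ∈ H), b = rr ρ W ⟨h, hHW hh⟩}).map
        vl = Submodule.span (PadicAlgCl ℓ) (toEnd ρ '' H) := by
      rw [Submodule.map_span]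
      congr 1
      ext y
      constructor
      · rintro ⟨_, ⟨h, hh, rfl⟩, rfl⟩
        exact ⟨h, hh, rfl⟩
      · rintro ⟨h, hh, rfl⟩
        exact ⟨_, ⟨h, hh, rfl⟩, rfl⟩
    rw [← h2] at h1
    obtain ⟨b, hb, hba⟩ := h1
    have : b = a := Subtype.ext hba
    rw [← this]
    exact hb
  have hNn : 0 < N * n := Nat.mul_pos hN hn
  have hF : ∀ h ∈ H₀, L (toEnd ρ (h * x₀)) ^ (N * n) =
      c * (ρ (h * x₀) : Matrix (Fin n) (Fin n) (PadicAlgCl ℓ)).det ^ N := fun h hh => sub_eq_zero.1 (hΦ h hh)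
  have hdet0 : ∀ x : Γ, (ρ x : Matrix (Fin n) (Fin n) (PadicAlgCl ℓ)).det ≠ 0 := fun x =>
    ((Matrix.isUnit_iff_isUnit_det _).1 (ρ x).isUnit).ne_zero
  have hc0 : c ≠ 0 := by
    rintro rfl
    apply hL3 H₀ hH₀W (hspan H₀ hH₀W hH₀) x₀ hx₀
    intro h hh
    have h1 := hF h hh
    rw [zero_mul] at h1
    exact pow_eq_zero_iff hNn.ne' |>.1 h1
  set F₁ := L (toEnd ρ x₀) with hF₁
  have hF₁e : F₁ ^ (N * n) = c * (ρ x₀ : Matrix (Fin n) (Fin n) (PadicAlgCl ℓ)).det ^ N := by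
    have := hF 1 H₀.one_mem
    rwa [one_mul] at this
  have hF₁0 : F₁ ≠ 0 := by
    intro h0
    rw [h0, zero_pow hNn.ne'] at hF₁e
    exact mul_ne_zero hc0 (pow_ne_zero N (hdet0 x₀)) hF₁e.symm
  let f : Γ → PadicAlgCl ℓ := fun h => L (toEnd ρ (h * x₀)) / F₁
  have hfpow : ∀ h ∈ H₀, f h ^ (N * n) = (ρ h : Matrix (Fin n) (Fin n) (PadicAlgCl ℓ)).det ^ N := by
    intro h hh
    show (L (toEnd ρ (h * x₀)) / F₁) ^ (N * n) = _
    rw [div_pow, hF h hh, hF₁e, map_mul, Units.val_mul, Matrix.det_mul, mul_pow]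
    have h1 : (ρ x₀ : Matrix (Fin n) (Fin n) (PadicAlgCl ℓ)).det ^ N ≠ 0 := pow_ne_zero N (hdet0 x₀)
    field_simp
  have hf1 : f 1 = 1 := by
    show L (toEnd ρ (1 * x₀)) / F₁ = 1
    rw [one_mul]
    exact div_self hF₁0
  have hfc : Continuous f := by
    have h1 : Continuous fun x : Γ => L (toEnd ρ x) := cont_mem ρ hW hρ _ (functional_mem ρ W L)
    have h2 : Continuous fun x : Γ => L (toEnd ρ (x * x₀)) := h1.comp (continuous_mul_const x₀)
    exact h2.div_const _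
  have hℓ : (0 : ℝ) < (ℓ : ℝ)⁻¹ := by
    have : (0 : ℝ) < ℓ := by exact_mod_cast (Fact.out : ℓ.Prime).pos
    positivity
  have hopen : IsOpen ((H₀ : Set Γ) ∩ {h | ‖f h - 1‖ < (ℓ : ℝ)⁻¹}) :=
    hH₀.inter (isOpen_lt (hfc.sub continuous_const).norm continuous_const)
  obtain ⟨U, hU⟩ := ProfiniteGrp.exist_openNormalSubgroup_sub_open_nhds_of_one hopen
    ⟨H₀.one_mem, by rw [Set.mem_ofPred_eq, hf1, sub_self, norm_zero]; exact hℓ⟩
  have hUW : U.toSubgroup ≤ W := fun u hu => hH₀W (hU hu).1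
  have hmul : ∀ h ∈ U.toSubgroup, ∀ h' ∈ U.toSubgroup, f (h * h') = f h' * f h := by
    intro h hh h' hh'
    refine near_unique hNn (hU (U.toSubgroup.mul_mem hh hh')).2 (near_mul (hU hh').2 (hU hh).2) ?_
    rw [hfpow _ (H₀.mul_mem (hU hh).1 (hU hh').1), mul_pow, hfpow _ (hU hh').1, hfpow _ (hU hh).1, map_mul,
      Units.val_mul, Matrix.det_mul, mul_pow, mul_comm]
  refine ⟨U.toSubgroup, f, U.isOpen', fun h hh => ⟨⟨hfpow h (hU hh).1, (hU hh).2⟩, ?_⟩⟩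
  refine hL2 U.toSubgroup hUW (hspan _ hUW U.isOpen') x₀ hx₀ h hh (f h) ?_
  intro h' hh'
  have h1 := hmul h' hh' h hh
  have h2 : L (toEnd ρ (h' * h * x₀)) / F₁ = f h * (L (toEnd ρ (h' * x₀)) / F₁) := h1
  rw [div_eq_iff hF₁0, mul_assoc (f h), div_mul_cancel₀ _ hF₁0] at h2
  exact h2

/-- **The main theorem for compact groups**, up to scalars. -/
theorem pmain_of (hρ : Continuous ρ) (hss : Semisimple ρ) {N : ℕ} (hN : 0 < N) (Z : Set Γ)
    (hZ : ∀ g ∈ Z, ∀ a b, (toEnd ρ g).HasEigenvalue a → (toEnd ρ g).HasEigenvalue b → a ^ N = b ^ N)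
    (hpos : ∀ (W : Subgroup Γ) [W.Normal], IsOpen (W : Set Γ) → ∀ S : Submodule (AR ρ W) (Fin n → PadicAlgCl ℓ),
      IsSimpleModule (AR ρ W) S → μ (Z ∩ (stab (cr ρ W) S : Set Γ)) ≠ 0) :
    ∃ H : Subgroup Γ, IsOpen (H : Set Γ) ∧ ∀ h ∈ H, ∃ z : PadicAlgCl ℓ,
      (ρ h : Matrix (Fin n) (Fin n) (PadicAlgCl ℓ)) = z • 1 := by
  classical
  rcases Nat.eq_zero_or_pos n with hn0 | hn
  · subst hn0
    exact ⟨⊤, isOpen_univ, fun h _ => ⟨1, Subsingleton.elim _ _⟩⟩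
  obtain ⟨W, hWn, hWo, hmin⟩ := exists_minimal ρ
  haveI := hWn
  haveI : IsArtinian (AR ρ W) (Fin n → PadicAlgCl ℓ) := isArtinian_of_tower (PadicAlgCl ℓ) inferInstance
  -- the vectors on which an open subgroup acts by the root of the determinant
  let sm : Submodule (PadicAlgCl ℓ) (Fin n → PadicAlgCl ℓ) :=
    { carrier := {v | ∃ H : Subgroup Γ, IsOpen (H : Set Γ) ∧ ∀ h ∈ H, ∀ z, Near ρ N h z → toEnd ρ h v = z • v}
      add_mem' := by
        rintro a b ⟨H, hH, ha⟩ ⟨H', hH', hb⟩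
        refine ⟨H ⊓ H', hH.inter hH', fun h hh z hz => ?_⟩
        rw [map_add, ha h hh.1 z hz, hb h hh.2 z hz, smul_add]
      zero_mem' := ⟨⊤, isOpen_univ, fun h _ z _ => by rw [map_zero, smul_zero]⟩
      smul_mem' := by
        rintro x a ⟨H, hH, ha⟩
        refine ⟨H, hH, fun h hh z hz => ?_⟩
        rw [map_smul, ha h hh z hz, smul_comm] }
  have hNn : 0 < N * n := Nat.mul_pos hN hn
  have hS : ∀ (S : Submodule (AR ρ W) (Fin n → PadicAlgCl ℓ)), IsSimpleModule (AR ρ W) S → ∀ s ∈ S, s ∈ sm := by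
    intro S hS s hs
    haveI := hS
    obtain ⟨H, f, hH, hf⟩ := scal_simple μ ρ hρ hN hn Z hZ W hWo hmin S (hpos W hWo S hS)
    refine ⟨H, hH, fun h hh z hz => ?_⟩
    obtain ⟨h1, h2⟩ := hf h hh
    rw [h2 s hs, near_unique hNn hz.2 h1.2 (hz.1.trans h1.1.symm)]
  have hstable : Stable ρ sm := by
    rintro g v ⟨H, hH, hv⟩
    refine ⟨H.map (MulAut.conj g).toMonoidHom, ?_, ?_⟩
    · have e : ((H.map (MulAut.conj g).toMonoidHom : Subgroup Γ) : Set Γ) = (fun x => g⁻¹ * x * g) ⁻¹' (H : Set Γ) := by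
        ext x
        constructor
        · rintro ⟨y, hy, rfl⟩
          show g⁻¹ * (g * y * g⁻¹) * g ∈ H
          have : g⁻¹ * (g * y * g⁻¹) * g = y := by group
          rw [this]
          exact hy
        · intro hx
          refine ⟨g⁻¹ * x * g, hx, ?_⟩
          show g * (g⁻¹ * x * g) * g⁻¹ = x
          group
      rw [e]
      exact hH.preimage (by fun_prop)
    · rintro _ ⟨y, hy, rfl⟩ z hz
      rw [← toEnd_apply]
      show toEnd ρ (g * y * g⁻¹) (toEnd ρ g v) = z • toEnd ρ g v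
      have h1 : toEnd ρ (g * y * g⁻¹) (toEnd ρ g v) = (toEnd ρ (g * y * g⁻¹) * toEnd ρ g) v := rfl
      rw [h1, ← map_mul]
      have h2 : g * y * g⁻¹ * g = g * y := by group
      have h3 : Near ρ N y z := by
        refine ⟨?_, hz.2⟩
        rw [hz.1]
        congr 1
        show (ρ (g * y * g⁻¹) : Matrix (Fin n) (Fin n) (PadicAlgCl ℓ)).det = _
        rw [map_mul, map_mul, map_inv, Units.val_mul, Units.val_mul]
        exact Matrix.det_units_conj (ρ g) (ρ y : Matrix (Fin n) (Fin n) (PadicAlgCl ℓ))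
      rw [h2, map_mul, Module.End.mul_apply, hv y hy z h3, map_smul]
  obtain ⟨V', hV', hcompl⟩ := hss sm hstable
  have hVbot : V' = ⊥ := by
    by_contra hne
    -- as a submodule over the algebra
    have hst : ∀ a ∈ algOn ρ W, ∀ v ∈ V', a v ∈ V' := by
      intro a ha
      refine Algebra.adjoin_induction (p := fun a _ => ∀ v ∈ V', a v ∈ V') ?_ ?_ ?_ ?_ ha
      · rintro _ ⟨w, hw, rfl⟩ v hv
        rw [toEnd_apply]
        exact hV' w v hv
      · intro r v hv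
        rw [Module.algebraMap_end_apply]
        exact V'.smul_mem r hv
      · intro x y _ _ hx hy v hv
        exact V'.add_mem (hx v hv) (hy v hv)
      · intro x y _ _ hx hy v hv
        exact hx _ (hy v hv)
    let VR : Submodule (AR ρ W) (Fin n → PadicAlgCl ℓ) :=
      { carrier := V'
        add_mem' := fun h1 h2 => V'.add_mem h1 h2
        zero_mem' := V'.zero_mem
        smul_mem' := fun a v hv => hst (val ρ a) (val_mem ρ a) v hv }
    rcases eq_bot_or_exists_atom_le VR with h0 | ⟨S, hSa, hSV⟩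
    · apply hne
      rw [eq_bot_iff]
      intro v hv
      have : v ∈ VR := hv
      rw [h0] at this
      exact this
    · haveI : IsSimpleModule (AR ρ W) S := isSimpleModule_iff_isAtom.2 hSa
      apply hSa.1
      rw [eq_bot_iff]
      intro s hs
      have h1 : s ∈ sm := hS S inferInstance s hs
      have h2 : s ∈ V' := hSV hs
      have h3 := (Submodule.disjoint_def.1 hcompl.disjoint) s h1 h2
      exact h3
  have htop : sm = ⊤ := by
    have := hcompl.sup_eq_top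
    rwa [hVbot, sup_bot_eq] at this
  have hb : ∀ i : Fin n, ∃ H : Subgroup Γ, IsOpen (H : Set Γ) ∧ ∀ h ∈ H, ∀ z, Near ρ N h z →
      toEnd ρ h (Pi.single i 1 : Fin n → PadicAlgCl ℓ) = z • Pi.single i 1 := by
    intro i
    have : (Pi.single i 1 : Fin n → PadicAlgCl ℓ) ∈ sm := by rw [htop]; trivial
    exact this
  choose H hHo hH using hb
  -- existence of the root
  obtain ⟨H', f, hH'o, hf⟩ : ∃ (H' : Subgroup Γ) (f : Γ → PadicAlgCl ℓ), IsOpen (H' : Set Γ) ∧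
      ∀ h ∈ H', Near ρ N h (f h) := by
    rcases eq_bot_or_exists_atom_le (⊤ : Submodule (AR ρ W) (Fin n → PadicAlgCl ℓ)) with h0 | ⟨S, hSa, -⟩
    · exfalso
      have h1 : (Pi.single (⟨0, hn⟩ : Fin n) 1 : Fin n → PadicAlgCl ℓ) ∈
          (⊤ : Submodule (AR ρ W) (Fin n → PadicAlgCl ℓ)) := Submodule.mem_top
      rw [h0, Submodule.mem_bot] at h1
      have h2 := congrFun h1 ⟨0, hn⟩
      rw [Pi.single_eq_same] at h2
      exact one_ne_zero h2
    · haveI : IsSimpleModule (AR ρ W) S := isSimpleModule_iff_isAtom.2 hSa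
      obtain ⟨H', f, hH', hf⟩ := scal_simple μ ρ hρ hN hn Z hZ W hWo hmin S (hpos W hWo S inferInstance)
      exact ⟨H', f, hH', fun h hh => (hf h hh).1⟩
  refine ⟨(⨅ i, H i) ⊓ H', ?_, fun h hh => ⟨f h, ?_⟩⟩
  · rw [Subgroup.coe_inf, Subgroup.coe_iInf]
    exact (isOpen_iInter_of_finite hHo).inter hH'o
  · have h1 : toEnd ρ h = f h • (1 : Module.End (PadicAlgCl ℓ) (Fin n → PadicAlgCl ℓ)) := by
      refine LinearMap.pi_ext' fun i => ?_
      ext
      have h2 := hH i h ((Subgroup.mem_iInf.1 hh.1) i) (f h) (hf h hh.2)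
      simpa using congrFun h2 _
    apply Matrix.toLin'.injective
    rw [map_smul, Matrix.toLin'_one]
    exact h1

/-- **The bound by the number of types.** -/
theorem pmain_types (hρ : Continuous ρ) (hss : Semisimple ρ) {N : ℕ} (hN : 0 < N) (Z : Set Γ)
    (hZ : ∀ g ∈ Z, ∀ a b, (toEnd ρ g).HasEigenvalue a → (toEnd ρ g).HasEigenvalue b → a ^ N = b ^ N)
    (hZm : MeasurableSet Z) {d : ℕ} (hd : TypesLE ρ d ∨ d = n) (hμ : (1 - μ.real Z) * d < 1) :
    ∃ H : Subgroup Γ, IsOpen (H : Set Γ) ∧ ∀ h ∈ H, ∃ z : PadicAlgCl ℓ,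
      (ρ h : Matrix (Fin n) (Fin n) (PadicAlgCl ℓ)) = z • 1 := by
  classical
  refine pmain_of μ ρ hρ hss hN Z hZ fun W hWn hWo S hS => ?_
  have hle : W ≤ stab (cr ρ W) S := fun w hw =>
    mem_stab (TT ρ) (cr ρ W) (TT_smul ρ W) S w (rr ρ W ⟨w, hw⟩) (rr ρ W ⟨w⁻¹, W.inv_mem hw⟩)
      (fun v => rfl) (fun v => rfl)
  have hHo : IsOpen (stab (cr ρ W) S : Set Γ) := Subgroup.isOpen_mono hle hWo
  haveI : Finite (Γ ⧸ stab (cr ρ W) S) := Subgroup.quotient_finite_of_isOpen _ hHo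
  refine meet_stab μ hZm hHo.measurableSet ?_ hμ
  rcases hd with hd | rfl
  · exact card_le_types ρ hd W hWo S hS
  · have := card_le (TT ρ) (cr ρ W) (TT_smul ρ W) S
    rwa [finrank_fin_fun] at this

end group

end Pool.Agent.X320.KR
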