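import Pool.Agent.X320.KR.PMain
import Pool.Agent.X320.DS.Pos

/-! Potentially scalar Galois representations. -/

set_option autoImplicit false
set_option linter.all false

namespace Pool.Agent.X320.KR

open MeasureTheory Topology Filter NumberField IsDedekindDomain Matrix Module Polynomial
open Pool.Agent.W401.Cheb Pool.Agent.X320.DS Pool.Agent.X320.RU

section eig

variable {ℓ : ℕ} [Fact ℓ.Prime] {n : ℕ}

theorem pow_apply {k V : Type*} [Field k] [AddCommGroup V] [Module k V] {y : End k V} {a : k} {v : V}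
    (h : y v = a • v) (N : ℕ) : (y ^ N) v = a ^ N • v := by
  induction N with
  | zero => simp
  | succ N ih => rw [pow_succ, Module.End.mul_apply, h, map_smul, ih, smul_smul, pow_succ, mul_comm]

/-- equal `N`-th powers of the eigenvalues -/
theorem eig_of {y : End (PadicAlgCl ℓ) (Fin n → PadicAlgCl ℓ)} {N : ℕ} {t : PadicAlgCl ℓ}
    (h : ((n : PadicAlgCl ℓ) • y ^ N - t • 1) ^ n = 0) {a b : PadicAlgCl ℓ} (ha : y.HasEigenvalue a)
    (hb : y.HasEigenvalue b) : a ^ N = b ^ N := by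
  have key : ∀ a, y.HasEigenvalue a → (n : PadicAlgCl ℓ) * a ^ N = t := by
    intro a ha
    obtain ⟨v, hv⟩ := ha.exists_hasEigenvector
    have h1 : ((n : PadicAlgCl ℓ) • y ^ N - t • 1 : End (PadicAlgCl ℓ) (Fin n → PadicAlgCl ℓ)) v =
        ((n : PadicAlgCl ℓ) * a ^ N - t) • v := by
      rw [LinearMap.sub_apply, LinearMap.smul_apply, LinearMap.smul_apply, pow_apply hv.apply_eq_smul, Module.End.one_apply,
        smul_smul, sub_smul]
    have h2 := pow_apply h1 n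
    rw [h, LinearMap.zero_apply] at h2
    have h3 := (smul_eq_zero.1 h2.symm).resolve_right hv.2
    by_contra hne
    exact pow_ne_zero n (sub_ne_zero.2 hne) h3
  have hn : (n : PadicAlgCl ℓ) ≠ 0 := by
    intro h0
    have hn0 : n = 0 := by exact_mod_cast h0
    obtain ⟨v, hv⟩ := ha.exists_hasEigenvector
    subst hn0
    exact hv.2 (Subsingleton.elim _ _)
  exact mul_left_cancel₀ hn ((key a ha).trans (key b hb).symm)

theorem eig_to {M : Matrix (Fin n) (Fin n) (PadicAlgCl ℓ)} {N : ℕ}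
    (h : ∀ a b, M.charpoly.IsRoot a → M.charpoly.IsRoot b → a ^ N = b ^ N) :
    ((n : PadicAlgCl ℓ) • M ^ N - (M ^ N).trace • 1) ^ n = 0 := by
  rcases Nat.eq_zero_or_pos n with hn0 | hn
  · subst hn0
    exact Subsingleton.elim _ _
  have hs : M.charpoly.Splits := IsAlgClosed.splits _
  have hcard : Multiset.card M.charpoly.roots = n := by
    rw [splits_iff_card_roots.1 hs, Matrix.charpoly_natDegree_eq_dim, Fintype.card_fin]
  obtain ⟨a₀, ha₀⟩ : ∃ a, a ∈ M.charpoly.roots := Multiset.card_pos_iff_exists_mem.1 (by rw [hcard]; exact hn)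
  have h1 : M.charpoly ∣ (X ^ N - C (a₀ ^ N) : (PadicAlgCl ℓ)[X]) ^ n := by
    have h2 := hs.eq_prod_roots_of_monic M.charpoly_monic
    rw [h2]
    have h3 : (M.charpoly.roots.map fun a => (X - C a : (PadicAlgCl ℓ)[X])).prod ∣
        (M.charpoly.roots.map fun _ => (X ^ N - C (a₀ ^ N) : (PadicAlgCl ℓ)[X])).prod := by
      refine Multiset.prod_dvd_prod_of_dvd _ _ fun a ha => ?_
      rw [dvd_iff_isRoot, IsRoot, eval_sub, eval_pow, eval_X, eval_C, sub_eq_zero]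
      exact h a a₀ (isRoot_of_mem_roots ha) (isRoot_of_mem_roots ha₀)
    rwa [Multiset.map_const', Multiset.prod_replicate, hcard] at h3
  obtain ⟨q, hq⟩ := h1
  have h4 : aeval M M.charpoly = 0 := Matrix.aeval_self_charpoly M
  have h5 := congrArg (aeval M) hq
  rw [map_mul, h4, zero_mul, map_pow, map_sub, map_pow, aeval_X, aeval_C, Algebra.algebraMap_eq_smul_one] at h5
  have h6 : (M ^ N).trace = n * a₀ ^ N := by
    have h7 : IsNilpotent (M ^ N - a₀ ^ N • (1 : Matrix (Fin n) (Fin n) (PadicAlgCl ℓ))) := ⟨n, h5⟩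
    have h8 := (Matrix.isNilpotent_trace_of_isNilpotent h7).eq_zero
    rw [Matrix.trace_sub, Matrix.trace_smul, Matrix.trace_one, Fintype.card_fin, smul_eq_mul, sub_eq_zero] at h8
    rw [h8, mul_comm]
  rw [h6, mul_smul, ← smul_sub, _root_.smul_pow, h5, smul_zero]

end eig

section grp

variable {Γ : Type*} [Group Γ] {ℓ : ℕ} [Fact ℓ.Prime] {n : ℕ} (ρ : Γ →* GL (Fin n) (PadicAlgCl ℓ))

theorem root_eig (g : Γ) {a : PadicAlgCl ℓ}
    (ha : (ρ g : Matrix (Fin n) (Fin n) (PadicAlgCl ℓ)).charpoly.IsRoot a) : (toEnd ρ g).HasEigenvalue a := by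
  have h1 : (LinearMap.charpoly (toEnd ρ g)).IsRoot a := by
    have e : LinearMap.charpoly (toEnd ρ g) = (ρ g : Matrix (Fin n) (Fin n) (PadicAlgCl ℓ)).charpoly :=
      Matrix.charpoly_toLin' _
    rw [e]
    exact ha
  rwa [← Module.End.hasEigenvalue_iff_isRoot_charpoly] at h1

theorem root_ne_zero' (g : Γ) {a : PadicAlgCl ℓ}
    (ha : (ρ g : Matrix (Fin n) (Fin n) (PadicAlgCl ℓ)).charpoly.IsRoot a) : a ≠ 0 := by
  rintro rfl
  obtain ⟨v, hv⟩ := (root_eig ρ g ha).exists_hasEigenvector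
  have h2 := hv.apply_eq_smul
  rw [zero_smul] at h2
  apply hv.2
  have h3 : toEnd ρ g⁻¹ (toEnd ρ g v) = v := by
    have : (toEnd ρ g⁻¹ * toEnd ρ g) v = v := by rw [inv_mul_toEnd]; rfl
    exact this
  rw [← h3, h2, map_zero]

variable [TopologicalSpace Γ] [IsTopologicalGroup Γ] [CompactSpace Γ] [T2Space Γ] [TotallyDisconnectedSpace Γ]

/-- a common exponent for the quotients of eigenvalues which are roots of unity -/
theorem exists_exp (hρ : Continuous ρ) : ∃ N : ℕ, 0 < N ∧ ∀ g, ∀ a b : PadicAlgCl ℓ,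
    (ρ g : Matrix (Fin n) (Fin n) (PadicAlgCl ℓ)).charpoly.IsRoot a →
    (ρ g : Matrix (Fin n) (Fin n) (PadicAlgCl ℓ)).charpoly.IsRoot b →
    (∃ m : ℕ, 0 < m ∧ a ^ m = b ^ m) → a ^ N = b ^ N := by
  have hopen : IsOpen {g : Γ | ∀ i j, ‖((ρ g : Matrix (Fin n) (Fin n) (PadicAlgCl ℓ)) - 1) i j‖ < (ℓ : ℝ)⁻¹} := by
    have e : {g : Γ | ∀ i j, ‖((ρ g : Matrix (Fin n) (Fin n) (PadicAlgCl ℓ)) - 1) i j‖ < (ℓ : ℝ)⁻¹} =
        ⋂ i, ⋂ j, {g : Γ | ‖((ρ g : Matrix (Fin n) (Fin n) (PadicAlgCl ℓ)) - 1) i j‖ < (ℓ : ℝ)⁻¹} := by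
      ext g
      simp
    rw [e]
    refine isOpen_iInter_of_finite fun i => isOpen_iInter_of_finite fun j => ?_
    have h1 : Continuous fun g : Γ => ((ρ g : Matrix (Fin n) (Fin n) (PadicAlgCl ℓ)) - 1) i j := by
      have h2 : Continuous fun g : Γ => (ρ g : Matrix (Fin n) (Fin n) (PadicAlgCl ℓ)) :=
        Units.continuous_val.comp hρ
      exact (h2.sub continuous_const).matrix_elem i j
    exact isOpen_lt h1.norm continuous_const
  have hℓ : (0 : ℝ) < (ℓ : ℝ)⁻¹ := by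
    have : (0 : ℝ) < ℓ := by exact_mod_cast (Fact.out : ℓ.Prime).pos
    positivity
  have hone : (1 : Γ) ∈ {g : Γ | ∀ i j, ‖((ρ g : Matrix (Fin n) (Fin n) (PadicAlgCl ℓ)) - 1) i j‖ < (ℓ : ℝ)⁻¹} := by
    intro i j
    rw [map_one, Units.val_one, sub_self, Matrix.zero_apply, norm_zero]
    exact hℓ
  obtain ⟨U, hU⟩ := ProfiniteGrp.exist_openNormalSubgroup_sub_open_nhds_of_one hopen hone
  haveI : Finite (Γ ⧸ U.toSubgroup) := Subgroup.quotient_finite_of_isOpen _ U.isOpen'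
  haveI : U.toSubgroup.Normal := U.isNormal'
  refine ⟨U.toSubgroup.index, Nat.pos_of_ne_zero Subgroup.index_ne_zero_of_finite, fun g a b ha hb hm => ?_⟩
  obtain ⟨m, hm, ham⟩ := hm
  have hgN : g ^ U.toSubgroup.index ∈ U.toSubgroup := Subgroup.pow_index_mem _ g
  have key : ∀ a, (ρ g : Matrix (Fin n) (Fin n) (PadicAlgCl ℓ)).charpoly.IsRoot a →
      ‖a ^ U.toSubgroup.index - 1‖ < (ℓ : ℝ)⁻¹ := by
    intro a ha
    obtain ⟨v, hv⟩ := (root_eig ρ g ha).exists_hasEigenvector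
    have h3 := pow_apply hv.apply_eq_smul U.toSubgroup.index
    rw [← map_pow, toEnd_apply] at h3
    exact eigen_close (hU hgN) hv.2 h3
  refine near_unique hm (key a ha) (key b hb) ?_
  rw [← pow_mul, ← pow_mul, mul_comm, pow_mul, pow_mul, ham]

end grp

section galois

variable {K : Type} [Field K] [NumberField K] {ℓ : ℕ} [Fact ℓ.Prime] {n : ℕ}

theorem root_inv (ρ : GK K →* GL (Fin n) (PadicAlgCl ℓ)) (g : GK K) {a : PadicAlgCl ℓ}
    (ha : (ρ g⁻¹ : Matrix (Fin n) (Fin n) (PadicAlgCl ℓ)).charpoly.IsRoot a) :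
    (ρ g : Matrix (Fin n) (Fin n) (PadicAlgCl ℓ)).charpoly.IsRoot a⁻¹ := by
  have ha0 := root_ne_zero' ρ g⁻¹ ha
  obtain ⟨v, hv⟩ := (root_eig ρ g⁻¹ ha).exists_hasEigenvector
  have h3 : toEnd ρ g (toEnd ρ g⁻¹ v) = v := by
    have : (toEnd ρ g * toEnd ρ g⁻¹) v = v := by rw [mul_inv_toEnd]; rfl
    exact this
  rw [hv.apply_eq_smul, map_smul] at h3
  have h4 : toEnd ρ g v = a⁻¹ • v := by
    rw [← h3, smul_smul, inv_mul_cancel₀ ha0, one_smul, h3]
  have h5 : (toEnd ρ g).HasEigenvalue a⁻¹ :=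
    Module.End.hasEigenvalue_of_hasEigenvector (x := v) ⟨Module.End.mem_eigenspace_iff.2 h4, hv.2⟩
  rw [Module.End.hasEigenvalue_iff_isRoot_charpoly] at h5
  have e : LinearMap.charpoly (toEnd ρ g) = (ρ g : Matrix (Fin n) (Fin n) (PadicAlgCl ℓ)).charpoly :=
    Matrix.charpoly_toLin' _
  rwa [e] at h5

/-- **Potentially scalar representations.** -/
theorem potentially_scalar (ρ : GK K →* GL (Fin n) (PadicAlgCl ℓ)) (hρ : Continuous ρ) (hss : Semisimple ρ)
    {d : ℕ} (hd : TypesLE ρ d ∨ d = n) {δ : ℝ} (hδ : (1 - δ) * d < 1)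
    (Good : HeightOneSpectrum (𝓞 K) → Prop) (hG : ∃ᶠ M in atTop, δ ≤ dens Good M)
    (hX : ∀ v, Good v → ∀ σ, IsFrob v σ → ∀ a b : PadicAlgCl ℓ,
      (ρ σ : Matrix (Fin n) (Fin n) (PadicAlgCl ℓ)).charpoly.IsRoot a →
      (ρ σ : Matrix (Fin n) (Fin n) (PadicAlgCl ℓ)).charpoly.IsRoot b → ∃ m : ℕ, 0 < m ∧ a ^ m = b ^ m) :
    ∃ H : Subgroup (GK K), IsOpen (H : Set (GK K)) ∧ ∀ h ∈ H, ∃ z : PadicAlgCl ℓ,
      (ρ h : Matrix (Fin n) (Fin n) (PadicAlgCl ℓ)) = z • 1 := by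
  classical
  letI : MeasurableSpace (GK K) := borel _
  haveI : BorelSpace (GK K) := ⟨rfl⟩
  set μ : Measure (GK K) := Measure.haarMeasure (⊤ : TopologicalSpace.PositiveCompacts (GK K)) with hμ
  haveI : IsProbabilityMeasure μ := ⟨by
    have := Measure.haarMeasure_self (K₀ := (⊤ : TopologicalSpace.PositiveCompacts (GK K)))
    rw [hμ]
    rwa [TopologicalSpace.PositiveCompacts.coe_top] at this⟩
  obtain ⟨N, hN, hexp⟩ := exists_exp ρ hρ
  let E := Matrix.toLinAlgEquiv' (R := PadicAlgCl ℓ) (n := Fin n)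
  have hE : ∀ g, E (ρ g : Matrix (Fin n) (Fin n) (PadicAlgCl ℓ)) = toEnd ρ g := fun g => rfl
  have hE2 : ∀ g (t : PadicAlgCl ℓ), E (((n : PadicAlgCl ℓ) • (ρ g : Matrix (Fin n) (Fin n) (PadicAlgCl ℓ)) ^ N - t • 1) ^ n) =
      ((n : PadicAlgCl ℓ) • toEnd ρ g ^ N - t • 1) ^ n := by
    intro g t
    rw [map_pow, map_sub, map_smul, map_smul, map_pow, map_one, hE]
  set Z : Set (GK K) := {g | ((n : PadicAlgCl ℓ) • (ρ g : Matrix (Fin n) (Fin n) (PadicAlgCl ℓ)) ^ N -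
    ((ρ g : Matrix (Fin n) (Fin n) (PadicAlgCl ℓ)) ^ N).trace • 1) ^ n = 0} with hZ
  have hZc : IsClosed Z := by
    have h1 : Continuous fun g : GK K => (ρ g : Matrix (Fin n) (Fin n) (PadicAlgCl ℓ)) :=
      Units.continuous_val.comp hρ
    have h2 : Continuous fun g : GK K => ((ρ g : Matrix (Fin n) (Fin n) (PadicAlgCl ℓ)) ^ N).trace :=
      (h1.pow N).matrix_trace
    have h3 : Continuous fun g : GK K => (n : PadicAlgCl ℓ) • (ρ g : Matrix (Fin n) (Fin n) (PadicAlgCl ℓ)) ^ N -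
        ((ρ g : Matrix (Fin n) (Fin n) (PadicAlgCl ℓ)) ^ N).trace • (1 : Matrix (Fin n) (Fin n) (PadicAlgCl ℓ)) :=
      (Continuous.const_smul (h1.pow N) (n : PadicAlgCl ℓ)).sub (h2.smul continuous_const)
    exact isClosed_eq (h3.pow n) continuous_const
  have h1 := measure_ge_freq μ Good hG Z hZc (fun v hv σ hσ => by
    refine eig_to fun a b ha hb => ?_
    obtain ⟨m, hm, hab⟩ := hX v hv σ hσ _ _ (root_inv ρ σ ha) (root_inv ρ σ hb)
    refine hexp σ⁻¹ a b ha hb ⟨m, hm, ?_⟩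
    rw [inv_pow, inv_pow] at hab
    exact inv_injective hab)
  have h2 : δ ≤ μ.real Z := by
    rw [measureReal_def]
    exact (ENNReal.ofReal_le_iff_le_toReal (measure_ne_top _ _)).1 h1
  refine pmain_types μ ρ hρ hss hN Z (fun g hg a b ha hb => ?_) hZc.measurableSet hd ?_
  · refine eig_of (t := ((ρ g : Matrix (Fin n) (Fin n) (PadicAlgCl ℓ)) ^ N).trace) ?_ ha hb
    rw [← hE2, show ((n : PadicAlgCl ℓ) • (ρ g : Matrix (Fin n) (Fin n) (PadicAlgCl ℓ)) ^ N -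
      ((ρ g : Matrix (Fin n) (Fin n) (PadicAlgCl ℓ)) ^ N).trace • 1) ^ n = 0 from hg, map_zero]
  · have h3 : (0 : ℝ) ≤ d := Nat.cast_nonneg _
    have h4 : (1 - μ.real Z) * d ≤ (1 - δ) * d := mul_le_mul_of_nonneg_right (by linarith) h3
    linarith

end galois

end Pool.Agent.X320.KR
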