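import Mathlib

/-! Kreknin's theorem: a Lie algebra graded by `ℤ/N` with central component of degree zero is solvable. -/

set_option autoImplicit false
set_option linter.all false

namespace Pool.Agent.X320.KR

variable {k : Type*} [Field k] {L : Type*} [LieRing L] [LieAlgebra k L] {N : ℕ} [NeZero N]

/-- a family of subspaces, graded for the bracket, with central component of degree zero -/
structure Sys (E : ZMod N → Submodule k L) : Prop where
  mul : ∀ a b x y, x ∈ E a → y ∈ E b → ⁅x, y⁆ ∈ E (a + b)
  cen : ∀ b x y, x ∈ E 0 → y ∈ E b → ⁅x, y⁆ = 0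

/-- the spans of the brackets -/
def DD (E : ZMod N → Submodule k L) (c : ZMod N) : Submodule k L :=
  Submodule.span k {z | ∃ a b x y, a + b = c ∧ x ∈ E a ∧ y ∈ E b ∧ z = ⁅x, y⁆}

theorem DD_le {E : ZMod N → Submodule k L} (hE : Sys E) (c : ZMod N) : DD E c ≤ E c := by
  refine Submodule.span_le.2 ?_
  rintro _ ⟨a, b, x, y, rfl, hx, hy, rfl⟩
  exact hE.mul a b x y hx hy

theorem DD_mono {E F : ZMod N → Submodule k L} (h : ∀ c, E c ≤ F c) (c : ZMod N) : DD E c ≤ DD F c := by
  refine Submodule.span_mono ?_
  rintro _ ⟨a, b, x, y, hab, hx, hy, rfl⟩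
  exact ⟨a, b, x, y, hab, h a hx, h b hy, rfl⟩

theorem DD_sys {E : ZMod N → Submodule k L} (hE : Sys E) : Sys (DD E) := by
  refine ⟨fun a b x y hx hy => ?_, fun b x y hx hy => ?_⟩
  · exact Submodule.subset_span ⟨a, b, x, y, rfl, DD_le hE a hx, DD_le hE b hy, rfl⟩
  · exact hE.cen b x y (DD_le hE 0 hx) (DD_le hE b hy)

theorem iter_sys {E : ZMod N → Submodule k L} (hE : Sys E) (m : ℕ) : Sys (DD^[m] E) := by
  induction m with
  | zero => exact hE
  | succ m ih =>
    rw [Function.iterate_succ_apply']
    exact DD_sys ih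

theorem iter_le {E : ZMod N → Submodule k L} (hE : Sys E) (m : ℕ) (c : ZMod N) : (DD^[m] E) c ≤ E c := by
  induction m with
  | zero => exact le_refl _
  | succ m ih =>
    rw [Function.iterate_succ_apply']
    exact (DD_le (iter_sys hE m) c).trans ih

/-- left-normed commutators in elements of degrees `≥ k` -/
inductive Com (E : ZMod N → Submodule k L) (r : ℕ) : ZMod N → L → Prop
  | base (a : ZMod N) (x : L) : r ≤ a.val → x ∈ E a → Com E r a x
  | step (a b : ZMod N) (x z : L) : Com E r a x → r ≤ b.val → z ∈ E b → Com E r (a + b) ⁅x, z⁆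

/-- their spans -/
def GG (E : ZMod N → Submodule k L) (r : ℕ) (a : ZMod N) : Submodule k L := Submodule.span k {x | Com E r a x}

theorem com_mem {E : ZMod N → Submodule k L} (hE : Sys E) {r : ℕ} {a : ZMod N} {x : L} (h : Com E r a x) : x ∈ E a := by
  induction h with
  | base a x _ h => exact h
  | step a b x z _ _ hz ih => exact hE.mul a b x z ih hz

theorem GG_mul {E : ZMod N → Submodule k L} {r : ℕ} {b : ZMod N} {y : L} (hy : y ∈ GG E r b) :
    ∀ (a : ZMod N) (x : L), x ∈ GG E r a → ⁅x, y⁆ ∈ GG E r (a + b) := by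
  have h1 : ∀ (b : ZMod N) (y : L), Com E r b y → ∀ (a : ZMod N) (x : L), x ∈ GG E r a → ⁅x, y⁆ ∈ GG E r (a + b) := by
    intro b y h
    induction h with
    | base b z hb hz =>
      intro a x hx
      refine Submodule.span_induction (p := fun x _ => ⁅x, z⁆ ∈ GG E r (a + b)) ?_ ?_ ?_ ?_ hx
      · intro x hx
        exact Submodule.subset_span (Com.step a b x z hx hb hz)
      · rw [zero_lie]
        exact Submodule.zero_mem _
      · intro x x' _ _ h h'
        rw [add_lie]
        exact Submodule.add_mem _ h h'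
      · intro c x _ h
        rw [smul_lie]
        exact Submodule.smul_mem _ _ h
    | step b c y z hy hc hz ih =>
      intro a x hx
      have e : ⁅x, ⁅y, z⁆⁆ = ⁅⁅x, y⁆, z⁆ - ⁅⁅x, z⁆, y⁆ := by
        rw [leibniz_lie x y z, ← lie_skew y ⁅x, z⁆]
        abel
      rw [e]
      have hz' : ∀ (a : ZMod N) (x : L), x ∈ GG E r a → ⁅x, z⁆ ∈ GG E r (a + c) := by
        intro a x hx
        refine Submodule.span_induction (p := fun x _ => ⁅x, z⁆ ∈ GG E r (a + c)) ?_ ?_ ?_ ?_ hx
        · intro x hx
          exact Submodule.subset_span (Com.step a c x z hx hc hz)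
        · rw [zero_lie]
          exact Submodule.zero_mem _
        · intro x x' _ _ h h'
          rw [add_lie]
          exact Submodule.add_mem _ h h'
        · intro c x _ h
          rw [smul_lie]
          exact Submodule.smul_mem _ _ h
      refine Submodule.sub_mem _ ?_ ?_
      · have h2 := hz' _ _ (ih a x hx)
        rwa [add_assoc] at h2
      · have h2 := ih _ _ (hz' a x hx)
        have e2 : a + c + b = a + (b + c) := by ring
        rwa [e2] at h2
  intro a x hx
  refine Submodule.span_induction (p := fun y _ => ⁅x, y⁆ ∈ GG E r (a + b)) ?_ ?_ ?_ ?_ hy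
  · intro y hy
    exact h1 b y hy a x hx
  · rw [lie_zero]
    exact Submodule.zero_mem _
  · intro y y' _ _ h h'
    rw [lie_add]
    exact Submodule.add_mem _ h h'
  · intro c y _ h
    rw [lie_smul]
    exact Submodule.smul_mem _ _ h

/-- the last factor -/
theorem last {E : ZMod N → Submodule k L} (hE : Sys E) {r : ℕ} {a : ZMod N} {x : L} (h : Com E r a x) :
    ∀ (b : ZMod N) (y : L), y ∈ E b →
      ⁅y, x⁆ ∈ Submodule.span k {t | ∃ d e w z, r ≤ e.val ∧ d + e = b + a ∧ w ∈ E d ∧ z ∈ E e ∧ t = ⁅w, z⁆} := by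
  induction h with
  | base a z ha hz =>
    intro b y hy
    exact Submodule.subset_span ⟨b, a, y, z, ha, rfl, hy, hz, rfl⟩
  | step a c x z hx hc hz ih =>
    intro b y hy
    have e : ⁅y, ⁅x, z⁆⁆ = ⁅⁅y, x⁆, z⁆ - ⁅⁅y, z⁆, x⁆ := by
      rw [leibniz_lie y x z, ← lie_skew x ⁅y, z⁆]
      abel
    rw [e]
    refine Submodule.sub_mem _ ?_ ?_
    · exact Submodule.subset_span ⟨b + a, c, ⁅y, x⁆, z, hc, by ring, hE.mul b a y x hy (com_mem hE hx), hz, rfl⟩
    · have h2 := ih (b + c) ⁅y, z⁆ (hE.mul b c y z hy hz)
      have e2 : b + c + a = b + (a + c) := by ring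
      rwa [e2] at h2

theorem val_add_cases (a b : ZMod N) : (a + b).val = a.val + b.val ∨ (a + b).val + N = a.val + b.val := by
  rcases lt_or_ge (a.val + b.val) N with h | h
  · left
    exact ZMod.val_add_of_lt h
  · right
    rw [ZMod.val_add_of_le h]
    omega

theorem key_step {E : ZMod N → Submodule k L} (hE : Sys E) {r : ℕ} {c : ZMod N} (hc : c.val = r) (a b : ZMod N)
    (hab : a + b = c) {x y : L} (hx : x ∈ GG E r a) (hy : y ∈ E b) : ⁅y, x⁆ ∈ GG E (r + 1) c := by
  have h1 : ∀ t ∈ Submodule.span k {t | ∃ d e w z, r ≤ e.val ∧ d + e = b + a ∧ w ∈ E d ∧ z ∈ E e ∧ t = ⁅w, z⁆},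
      t ∈ GG E (r + 1) c := by
    intro t ht
    refine Submodule.span_le.2 ?_ ht
    rintro _ ⟨d, e, w, z, he, hde, hw, hz, rfl⟩
    have hde' : d + e = c := by rw [hde, add_comm, hab]
    rcases Nat.lt_or_ge r e.val with hlt | hge
    · have hd : r + 1 ≤ d.val := by
        have h2 := val_add_cases d e
        rw [hde', hc] at h2
        have h3 := ZMod.val_lt e
        omega
      have h2 := Com.step (E := E) (r := r + 1) d e w z (Com.base d w hd hw) hlt hz
      rw [hde'] at h2
      exact Submodule.subset_span h2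
    · have h2 : e = c := ZMod.val_injective N (by omega)
      have h3 : d = 0 := by
        rw [h2] at hde'
        exact add_eq_right.1 hde'
      rw [h3] at hw
      rw [hE.cen e w z hw hz]
      exact Submodule.zero_mem _
  refine Submodule.span_induction (p := fun x _ => ⁅y, x⁆ ∈ GG E (r + 1) c) ?_ ?_ ?_ ?_ hx
  · intro x hx
    exact h1 _ (last hE hx b y hy)
  · rw [lie_zero]
    exact Submodule.zero_mem _
  · intro x x' _ _ h h'
    rw [lie_add]
    exact Submodule.add_mem _ h h'
  · intro s x _ h
    rw [lie_smul]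
    exact Submodule.smul_mem _ _ h

/-- the exponents -/
def FF : ℕ → ℕ
  | 0 => 0
  | (r + 1) => 2 * FF r + 1

theorem main_ind (r : ℕ) : ∀ (E : ZMod N → Submodule k L), Sys E → ∀ a : ZMod N, 1 ≤ a.val → a.val < r + 1 →
    (DD^[FF r] E) a ≤ GG E (r + 1) a := by
  induction r with
  | zero => intro E _ a h1 h2; omega
  | succ r ih =>
    intro E hE a ha1 ha2
    have hE' := iter_sys hE
    -- degree `r + 1`
    have halpha : ∀ c : ZMod N, c.val = r + 1 → (DD^[FF r + 1] E) c ≤ GG E (r + 2) c := by
      intro c hc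
      rw [Function.iterate_succ_apply']
      refine Submodule.span_le.2 ?_
      rintro _ ⟨a, b, x, y, hab, hx, hy, rfl⟩
      have hxE := iter_le hE _ _ hx
      have hyE := iter_le hE _ _ hy
      have hcases := val_add_cases a b
      rw [hab, hc] at hcases
      have hla := ZMod.val_lt a
      have hlb := ZMod.val_lt b
      rcases Nat.eq_zero_or_pos a.val with h0 | hpos
      · have : a = 0 := (ZMod.val_eq_zero a).1 h0
        rw [this] at hxE
        rw [hE.cen b x y hxE hyE]
        exact Submodule.zero_mem _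
      rcases Nat.eq_zero_or_pos b.val with h0 | hpos'
      · have : b = 0 := (ZMod.val_eq_zero b).1 h0
        rw [this] at hyE
        rw [← lie_skew, hE.cen a y x hyE hxE, neg_zero]
        exact Submodule.zero_mem _
      rcases hcases with h | h
      · -- no wrap
        have h1 := ih E hE a hpos (by omega) hx
        have h2 := key_step hE hc a b hab h1 hyE
        rw [← lie_skew]
        exact Submodule.neg_mem _ h2
      · have h1 := Com.step (E := E) (r := r + 2) a b x y (Com.base a x (by omega) hxE) (by omega) hyE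
        rw [hab] at h1
        exact Submodule.subset_span h1
    rcases Nat.lt_or_ge a.val (r + 1) with hlt | hge
    · have e : DD^[FF (r + 1)] E = DD^[FF r] (DD^[FF r + 1] E) := by
        rw [← Function.iterate_add_apply]
        congr 1
        show 2 * FF r + 1 = FF r + (FF r + 1)
        ring
      rw [e]
      refine (ih (DD^[FF r + 1] E) (hE' _) a ha1 hlt).trans ?_
      refine Submodule.span_le.2 ?_
      intro x hx
      show x ∈ GG E (r + 2) a
      clear ha1 ha2 hlt
      induction hx with
      | base b z hb hz =>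
        rcases Nat.eq_or_lt_of_le hb with h | h
        · exact halpha b h.symm hz
        · exact Submodule.subset_span (Com.base b z h (iter_le hE _ _ hz))
      | step a b x z _ hb hz ih' =>
        refine GG_mul ?_ a x ih'
        rcases Nat.eq_or_lt_of_le hb with h | h
        · exact halpha b h.symm hz
        · exact Submodule.subset_span (Com.base b z h (iter_le hE _ _ hz))
    · have e : DD^[FF (r + 1)] E = DD^[FF r] (DD^[FF r + 1] E) := by
        rw [← Function.iterate_add_apply]
        congr 1
        show 2 * FF r + 1 = FF r + (FF r + 1)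
        ring
      rw [e]
      exact (iter_le (hE' _) _ a).trans (halpha a (by omega))

/-- **Kreknin's theorem.** -/
theorem kreknin {E : ZMod N → Submodule k L} (hE : Sys E) : ∃ m : ℕ, ∀ a, (DD^[m] E) a = ⊥ := by
  have hN : 0 < N := Nat.pos_of_ne_zero (NeZero.ne N)
  refine ⟨FF (N - 1) + 1, fun c => ?_⟩
  have h1 : ∀ a : ZMod N, a ≠ 0 → (DD^[FF (N - 1)] E) a = ⊥ := by
    intro a ha
    rw [eq_bot_iff]
    refine (main_ind (N - 1) E hE a ?_ ?_).trans ?_
    · have : a.val ≠ 0 := fun h => ha ((ZMod.val_eq_zero a).1 h)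
      omega
    · have := ZMod.val_lt a
      omega
    · refine Submodule.span_le.2 ?_
      intro x hx
      exfalso
      have : ∀ (a : ZMod N) (x : L), Com E (N - 1 + 1) a x → False := by
        intro a x h
        induction h with
        | base a x h _ =>
          have := ZMod.val_lt a
          omega
        | step _ _ _ _ _ _ _ ih => exact ih
      exact this a x hx
  rw [Function.iterate_succ_apply', eq_bot_iff]
  refine Submodule.span_le.2 ?_
  rintro _ ⟨a, b, x, y, hab, hx, hy, rfl⟩
  show ⁅x, y⁆ = 0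
  by_cases ha : a = 0
  · rw [ha] at hx
    exact hE.cen b x y (iter_le hE _ _ hx) (iter_le hE _ _ hy)
  · rw [h1 a ha, Submodule.mem_bot] at hx
    rw [hx, zero_lie]

end Pool.Agent.X320.KR
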