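import Mathlib

/-! Matrices over an extension of `ℚ_[p]` which are close to one: powers, the logarithm. -/

set_option autoImplicit false
set_option linter.all false

namespace Pool.Agent.X320.KR

open Filter Topology

section dv

variable {E : Type*} [NormedField E] [IsUltrametricDist E] {n : ℕ}

/-- all entries of norm at most `r` -/
def Dv (r : ℝ) (X : Matrix (Fin n) (Fin n) E) : Prop := ∀ i j, ‖X i j‖ ≤ r

theorem Dv.mul {r s : ℝ} {X Y : Matrix (Fin n) (Fin n) E} (hr : 0 ≤ r) (hs : 0 ≤ s) (hX : Dv r X) (hY : Dv s Y) :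
    Dv (r * s) (X * Y) := by
  intro i j
  rw [Matrix.mul_apply]
  refine IsUltrametricDist.norm_sum_le_of_forall_le_of_nonneg (mul_nonneg hr hs) fun l _ => ?_
  rw [norm_mul]
  exact mul_le_mul (hX i l) (hY l j) (norm_nonneg _) hr

theorem Dv.add {r : ℝ} {X Y : Matrix (Fin n) (Fin n) E} (hX : Dv r X) (hY : Dv r Y) : Dv r (X + Y) := by
  intro i j
  rw [Matrix.add_apply]
  exact (IsUltrametricDist.norm_add_le_max _ _).trans (max_le (hX i j) (hY i j))

theorem Dv.mono {r s : ℝ} {X : Matrix (Fin n) (Fin n) E} (hX : Dv r X) (h : r ≤ s) : Dv s X :=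
  fun i j => (hX i j).trans h

theorem Dv.smul {r : ℝ} {X : Matrix (Fin n) (Fin n) E} (hX : Dv r X) (c : E) : Dv (‖c‖ * r) (c • X) := by
  intro i j
  rw [Matrix.smul_apply, norm_smul]
  exact mul_le_mul_of_nonneg_left (hX i j) (norm_nonneg _)

theorem Dv.one : Dv 1 (1 : Matrix (Fin n) (Fin n) E) := by
  intro i j
  rw [Matrix.one_apply]
  split_ifs <;> simp

theorem Dv.of_sub {r : ℝ} {B : Matrix (Fin n) (Fin n) E} (hr : r ≤ 1) (h : Dv r (B - 1)) : Dv 1 B := by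
  have := (h.mono hr).add Dv.one
  rwa [sub_add_cancel] at this

theorem natCast_norm_le (q : ℕ) : ‖(q : E)‖ ≤ 1 := IsUltrametricDist.norm_natCast_le_one E q

theorem Dv.pow {r : ℝ} {B : Matrix (Fin n) (Fin n) E} (hr0 : 0 ≤ r) (hr : r ≤ 1) (h : Dv r (B - 1)) (q : ℕ) :
    Dv r (B ^ q - 1) := by
  induction q with
  | zero =>
    intro i j
    rw [pow_zero, sub_self, Matrix.zero_apply, norm_zero]
    exact hr0
  | succ q ih =>
    have e : B ^ (q + 1) - 1 = (B ^ q - 1) * B + (B - 1) := by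
      rw [pow_succ, sub_mul, one_mul]
      abel
    rw [e]
    refine Dv.add ?_ h
    have := Dv.mul hr0 zero_le_one ih (Dv.of_sub hr h)
    rwa [mul_one] at this

/-- the commutator with a power -/
theorem comm_pow {ε r : ℝ} (hε0 : 0 ≤ ε) (hε : ε ≤ 1) (hr : 0 ≤ r) {B y : Matrix (Fin n) (Fin n) E}
    (hB : Dv ε (B - 1)) (hz : Dv r (B * y - y * B)) (q : ℕ) :
    Dv (ε * r) (B ^ q * y - y * B ^ q - (q : E) • (B * y - y * B)) := by
  have h0 : 0 ≤ ε * r := mul_nonneg hε0 hr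
  induction q with
  | zero =>
    intro i j
    rw [pow_zero, one_mul, mul_one, sub_self, Nat.cast_zero, zero_smul, sub_self, Matrix.zero_apply, norm_zero]
    exact h0
  | succ q ih =>
    have e : B ^ (q + 1) * y - y * B ^ (q + 1) - ((q + 1 : ℕ) : E) • (B * y - y * B) =
        (B ^ q - 1) * (B * y - y * B) + (B ^ q * y - y * B ^ q - (q : E) • (B * y - y * B)) * B +
          (q : E) • ((B * y - y * B) * (B - 1)) := by
      rw [Nat.cast_add, Nat.cast_one, add_smul, one_smul, pow_succ]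
      simp only [sub_mul, mul_sub, one_mul, mul_one, smul_mul_assoc, smul_sub, mul_assoc]
      abel
    rw [e]
    refine Dv.add (Dv.add ?_ ?_) ?_
    · exact Dv.mul hε0 hr (Dv.pow hε0 hε hB q) hz
    · have := Dv.mul h0 zero_le_one ih (Dv.of_sub hε hB)
      rwa [mul_one] at this
    · have h1 := Dv.smul (Dv.mul hr hε0 hz hB) (q : E)
      refine h1.mono ?_
      rw [mul_comm r ε]
      calc ‖(q : E)‖ * (ε * r) ≤ 1 * (ε * r) := mul_le_mul_of_nonneg_right (natCast_norm_le q) h0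
        _ = ε * r := one_mul _

theorem exists_max_entry [Nonempty (Fin n)] (z : Matrix (Fin n) (Fin n) E) : ∃ i j, Dv ‖z i j‖ z := by
  obtain ⟨⟨i, j⟩, h⟩ := Finite.exists_max (fun ij : Fin n × Fin n => ‖z ij.1 ij.2‖)
  exact ⟨i, j, fun a b => h (a, b)⟩

theorem comm_prime {ε : ℝ} (hε0 : 0 ≤ ε) (hε : ε ≤ 1) {q : ℕ} (hq : ε < ‖(q : E)‖) {B y : Matrix (Fin n) (Fin n) E}
    (hB : Dv ε (B - 1)) (h : B ^ q * y = y * B ^ q) : B * y = y * B := by
  rcases isEmpty_or_nonempty (Fin n) with hn | hn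
  · exact Subsingleton.elim _ _
  obtain ⟨i, j, hij⟩ := exists_max_entry (B * y - y * B)
  have h1 := comm_pow hε0 hε (norm_nonneg _) hB hij q i j
  rw [h, sub_self, zero_sub, Matrix.neg_apply, norm_neg, Matrix.smul_apply, norm_smul] at h1
  have h2 : ‖(B * y - y * B) i j‖ = 0 := by
    by_contra hne
    have hpos : 0 < ‖(B * y - y * B) i j‖ := lt_of_le_of_ne (norm_nonneg _) (Ne.symm hne)
    have := le_of_mul_le_mul_right h1 hpos
    linarith
  rw [h2] at hij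
  rw [← sub_eq_zero]
  ext a b
  exact norm_le_zero_iff.1 (hij a b)

/-- If a power of a matrix close to one commutes with `y`, the matrix commutes with `y`. -/
theorem comm_of_pow {ε : ℝ} (hε0 : 0 ≤ ε) (hε : ε ≤ 1) (hq : ∀ q : ℕ, q.Prime → ε < ‖(q : E)‖)
    {y : Matrix (Fin n) (Fin n) E} (a : ℕ) : ∀ (B : Matrix (Fin n) (Fin n) E), 0 < a → Dv ε (B - 1) →
      B ^ a * y = y * B ^ a → B * y = y * B := by
  induction a using Nat.strong_induction_on with
  | _ a ih =>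
    intro B ha hB h
    rcases Nat.eq_or_lt_of_le (Nat.succ_le_of_lt ha) with h1 | h1
    · rw [← h1] at h
      simpa using h
    · obtain ⟨q, hqp, b, rfl⟩ := Nat.exists_prime_and_dvd (show a ≠ 1 by omega)
      have hb0 : 0 < b := Nat.pos_of_ne_zero (by rintro rfl; simp at ha)
      have hb : b < q * b := by
        have := hqp.two_le
        nlinarith
      refine ih b hb B hb0 hB ?_
      refine comm_prime hε0 hε (hq q hqp) (Dv.pow hε0 hε hB b) ?_
      rw [← pow_mul, mul_comm b q]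
      exact h

/-- `(1 + X) ^ q` to second order -/
theorem pow_expand {X : Matrix (Fin n) (Fin n) E} (hX : Dv 1 X) (q : ℕ) :
    ∃ Q : Matrix (Fin n) (Fin n) E, Dv 1 Q ∧ (1 + X) ^ q - 1 = (q : E) • X + X * X * Q := by
  induction q with
  | zero =>
    refine ⟨0, fun i j => by simp, by simp⟩
  | succ q ih =>
    obtain ⟨Q, hQ, hq⟩ := ih
    refine ⟨(q : E) • 1 + Q + Q * X, ?_, ?_⟩
    · refine Dv.add (Dv.add ?_ hQ) ?_
      · refine (Dv.smul Dv.one (q : E)).mono ?_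
        rw [mul_one]
        exact natCast_norm_le q
      · have := Dv.mul zero_le_one zero_le_one hQ hX
        rwa [mul_one] at this
    · have e : (1 + X) ^ (q + 1) - 1 = ((1 + X) ^ q - 1) * (1 + X) + X := by
        rw [pow_succ, sub_mul, one_mul]
        abel
      rw [e, hq, Nat.cast_add, Nat.cast_one, add_smul, one_smul]
      simp only [mul_add, add_mul, mul_one, one_mul, smul_mul_assoc, mul_smul_comm, mul_assoc]
      abel

end dv

section padic

variable {p : ℕ} [hp : Fact p.Prime] {E : Type*} [NormedField E] [IsUltrametricDist E] [NormedAlgebra ℚ_[p] E]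
  {n : ℕ}

theorem norm_nat (q : ℕ) : ‖(q : E)‖ = ‖(q : ℚ_[p])‖ := by
  rw [← norm_algebraMap' E (q : ℚ_[p]), map_natCast]

theorem norm_p : ‖(p : E)‖ = (p : ℝ)⁻¹ := by
  rw [norm_nat (p := p), Padic.norm_p]

theorem p_pos : (0 : ℝ) < (p : ℝ)⁻¹ := by
  have : (0 : ℝ) < p := by exact_mod_cast hp.out.pos
  positivity

theorem p_lt : (p : ℝ)⁻¹ < 1 := by
  have h : (1 : ℝ) < p := by exact_mod_cast hp.out.one_lt
  exact inv_lt_one_of_one_lt₀ h

theorem norm_prime_le {q : ℕ} (hq : q.Prime) : (p : ℝ)⁻¹ ≤ ‖(q : E)‖ := by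
  rw [norm_nat (p := p)]
  rcases eq_or_ne q p with rfl | hne
  · rw [Padic.norm_p]
  · have h2 : ‖(q : ℚ_[p])‖ = 1 := by
      have h3 : ¬ ‖((q : ℤ) : ℚ_[p])‖ < 1 := by
        rw [Padic.norm_intCast_lt_one_iff]
        intro h
        have : p ∣ q := by exact_mod_cast h
        exact hne ((Nat.prime_dvd_prime_iff_eq hp.out hq).1 this).symm
      have h4 := Padic.norm_int_le_one (p := p) (q : ℤ)
      have h5 := le_antisymm h4 (not_lt.1 h3)
      simpa using h5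
    rw [h2]
    exact (p_lt (p := p)).le

/-- the radius -/
noncomputable def rad (p : ℕ) : ℝ := (p : ℝ)⁻¹ * (p : ℝ)⁻¹

theorem rad_pos : 0 < rad p := mul_pos (p_pos (p := p)) (p_pos (p := p))

theorem rad_lt : rad p < (p : ℝ)⁻¹ := by
  have h1 := p_pos (p := p)
  have h2 := p_lt (p := p)
  have : (p : ℝ)⁻¹ * (p : ℝ)⁻¹ < (p : ℝ)⁻¹ * 1 := mul_lt_mul_of_pos_left h2 h1
  rwa [mul_one] at this

theorem rad_le_one : rad p ≤ 1 := (rad_lt (p := p)).le.trans (p_lt (p := p)).le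

theorem rad_prime {q : ℕ} (hq : q.Prime) : rad p < ‖(q : E)‖ := (rad_lt (p := p)).trans_le (norm_prime_le hq)

/-- `Y` is the logarithm of `B` -/
def IsLog (p : ℕ) {E : Type*} [NormedField E] {n : ℕ} (B Y : Matrix (Fin n) (Fin n) E) : Prop :=
  Tendsto (fun m : ℕ => ((p : E) ^ m)⁻¹ • (B ^ p ^ m - 1)) atTop (𝓝 Y)

theorem p_ne : (p : E) ≠ 0 := by
  intro h
  have h1 := norm_p (p := p) (E := E)
  rw [h, norm_zero] at h1
  exact absurd h1 (p_pos (p := p)).ne

theorem pow_est {B : Matrix (Fin n) (Fin n) E} (hB : Dv (rad p) (B - 1)) (m : ℕ) :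
    Dv (((p : ℝ)⁻¹) ^ m * rad p) (B ^ p ^ m - 1) ∧
      Dv (((p : ℝ)⁻¹) ^ m * rad p * (((p : ℝ)⁻¹) ^ m * rad p)) (B ^ p ^ (m + 1) - 1 - (p : E) • (B ^ p ^ m - 1)) := by
  have h0 := p_pos (p := p)
  have h1 := p_lt (p := p)
  have h2 := rad_pos (p := p)
  have h3 := rad_lt (p := p)
  have hstep : ∀ m, Dv (((p : ℝ)⁻¹) ^ m * rad p) (B ^ p ^ m - 1) →
      Dv (((p : ℝ)⁻¹) ^ m * rad p * (((p : ℝ)⁻¹) ^ m * rad p)) (B ^ p ^ (m + 1) - 1 - (p : E) • (B ^ p ^ m - 1)) := by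
    intro m hm
    have hle : ((p : ℝ)⁻¹) ^ m * rad p ≤ 1 := by
      have : ((p : ℝ)⁻¹) ^ m ≤ 1 := pow_le_one₀ h0.le h1.le
      nlinarith [rad_le_one (p := p)]
    have hnn : 0 ≤ ((p : ℝ)⁻¹) ^ m * rad p := by positivity
    obtain ⟨Q, hQ, hq⟩ := pow_expand (hm.mono hle) p
    rw [add_sub_cancel, ← pow_mul, ← pow_succ] at hq
    rw [hq, add_sub_cancel_left]
    have := Dv.mul (mul_nonneg hnn hnn) zero_le_one (Dv.mul hnn hnn hm hm) hQ
    rwa [mul_one] at this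
  have hall : ∀ m, Dv (((p : ℝ)⁻¹) ^ m * rad p) (B ^ p ^ m - 1) := by
    intro m
    induction m with
    | zero => rw [pow_zero, pow_zero, one_mul, pow_one]; exact hB
    | succ m ih =>
      have h4 := hstep m ih
      have e : B ^ p ^ (m + 1) - 1 = (B ^ p ^ (m + 1) - 1 - (p : E) • (B ^ p ^ m - 1)) + (p : E) • (B ^ p ^ m - 1) := by
        abel
      rw [e]
      have hpm : ((p : ℝ)⁻¹) ^ m ≤ 1 := pow_le_one₀ h0.le h1.le
      have hpm0 : 0 < ((p : ℝ)⁻¹) ^ m := by positivity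
      refine Dv.add (h4.mono ?_) ((ih.smul (p : E)).mono ?_)
      · have h5 : ((p : ℝ)⁻¹) ^ m * rad p ≤ (p : ℝ)⁻¹ := by nlinarith
        have h6 : 0 ≤ ((p : ℝ)⁻¹) ^ m * rad p := by positivity
        calc ((p : ℝ)⁻¹) ^ m * rad p * (((p : ℝ)⁻¹) ^ m * rad p) ≤ ((p : ℝ)⁻¹) ^ m * rad p * (p : ℝ)⁻¹ :=
              mul_le_mul_of_nonneg_left h5 h6
          _ = ((p : ℝ)⁻¹) ^ (m + 1) * rad p := by ring
      · rw [norm_p (p := p)]
        exact le_of_eq (by ring)
  exact ⟨hall m, hstep m (hall m)⟩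

theorem exists_log [CompleteSpace E] {B : Matrix (Fin n) (Fin n) E} (hB : Dv (rad p) (B - 1)) :
    ∃ Y, IsLog p B Y := by
  have h0 := p_pos (p := p)
  have h1 := p_lt (p := p)
  have hpE := p_ne (p := p) (E := E)
  have h2 := rad_pos (p := p)
  have h3 : rad p ≤ 1 := rad_le_one (p := p)
  have hcau : ∀ i j, CauchySeq (fun m : ℕ => (((p : E) ^ m)⁻¹ • (B ^ p ^ m - 1)) i j) := by
    intro i j
    refine cauchySeq_of_le_geometric ((p : ℝ)⁻¹) (p : ℝ) h1 fun m => ?_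
    rw [dist_eq_norm, norm_sub_rev]
    have h4 := (pow_est hB m).2 i j
    have e : (((p : E) ^ (m + 1))⁻¹ • (B ^ p ^ (m + 1) - 1)) i j - (((p : E) ^ m)⁻¹ • (B ^ p ^ m - 1)) i j =
        ((p : E) ^ (m + 1))⁻¹ * (B ^ p ^ (m + 1) - 1 - (p : E) • (B ^ p ^ m - 1)) i j := by
      rw [Matrix.smul_apply, Matrix.smul_apply, Matrix.sub_apply (B ^ p ^ (m + 1) - 1), Matrix.smul_apply]
      simp only [smul_eq_mul]
      rw [mul_sub, ← mul_assoc, pow_succ, mul_inv, mul_assoc ((p : E) ^ m)⁻¹ (p : E)⁻¹ (p : E), inv_mul_cancel₀ hpE,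
        mul_one]
    rw [e, norm_mul, norm_inv, norm_pow, norm_p (p := p)]
    have h5 : (((p : ℝ)⁻¹ ^ (m + 1))⁻¹) = (p : ℝ) ^ (m + 1) := by rw [inv_pow, inv_inv]
    rw [h5]
    have hp0 : (0 : ℝ) < p := by exact_mod_cast hp.out.pos
    have h6 : (p : ℝ) ^ (m + 1) * ‖(B ^ p ^ (m + 1) - 1 - (p : E) • (B ^ p ^ m - 1)) i j‖ ≤
        (p : ℝ) ^ (m + 1) * (((p : ℝ)⁻¹) ^ m * rad p * (((p : ℝ)⁻¹) ^ m * rad p)) :=
      mul_le_mul_of_nonneg_left h4 (by positivity)
    refine h6.trans ?_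
    have e2 : (p : ℝ) ^ (m + 1) * (((p : ℝ)⁻¹) ^ m * rad p * (((p : ℝ)⁻¹) ^ m * rad p)) =
        (p : ℝ) * (p : ℝ)⁻¹ ^ m * (rad p * rad p) := by
      have : (p : ℝ) ^ m * ((p : ℝ)⁻¹) ^ m = 1 := by rw [← mul_pow, mul_inv_cancel₀ hp0.ne', one_pow]
      calc (p : ℝ) ^ (m + 1) * (((p : ℝ)⁻¹) ^ m * rad p * (((p : ℝ)⁻¹) ^ m * rad p)) =
          ((p : ℝ) ^ m * ((p : ℝ)⁻¹) ^ m) * ((p : ℝ) * (p : ℝ)⁻¹ ^ m * (rad p * rad p)) := by ring
        _ = _ := by rw [this, one_mul]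
    rw [e2]
    have h7 : rad p * rad p ≤ 1 := by nlinarith
    have h8 : 0 ≤ (p : ℝ) * (p : ℝ)⁻¹ ^ m := by positivity
    nlinarith
  choose Y hY using fun i j => cauchySeq_tendsto_of_complete (hcau i j)
  refine ⟨Matrix.of Y, ?_⟩
  refine tendsto_pi_nhds.2 fun i => tendsto_pi_nhds.2 fun j => ?_
  exact hY i j

theorem IsLog.pow_tendsto {B Y : Matrix (Fin n) (Fin n) E} (h : IsLog p B Y) :
    Tendsto (fun m : ℕ => B ^ p ^ m) atTop (𝓝 1) := by
  have hpE := p_ne (p := p) (E := E)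
  have h1 : Tendsto (fun m : ℕ => (p : E) ^ m) atTop (𝓝 0) := by
    refine tendsto_pow_atTop_nhds_zero_of_norm_lt_one ?_
    rw [norm_p (p := p)]
    exact p_lt (p := p)
  have h2 : Tendsto (fun m : ℕ => (p : E) ^ m • (((p : E) ^ m)⁻¹ • (B ^ p ^ m - 1)) + 1) atTop (𝓝 ((0 : E) • Y + 1)) :=
    (h1.smul h).add_const 1
  rw [zero_smul, zero_add] at h2
  refine h2.congr fun m => ?_
  rw [smul_smul, mul_inv_cancel₀ (pow_ne_zero m hpE), one_smul, sub_add_cancel]

theorem IsLog.conj {B Y : Matrix (Fin n) (Fin n) E} (h : IsLog p B Y) {A A' : Matrix (Fin n) (Fin n) E}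
    (hA : A * A' = 1) (hA' : A' * A = 1) : IsLog p (A * B * A') (A * Y * A') := by
  have hpow : ∀ q : ℕ, (A * B * A') ^ q = A * B ^ q * A' := by
    intro q
    induction q with
    | zero => rw [pow_zero, pow_zero, mul_one, hA]
    | succ q ih =>
      rw [pow_succ, ih, pow_succ]
      calc A * B ^ q * A' * (A * B * A') = A * B ^ q * (A' * A) * B * A' := by simp only [mul_assoc]
        _ = A * (B ^ q * B) * A' := by rw [hA', mul_one]; simp only [mul_assoc]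
  have h1 : Tendsto (fun m : ℕ => A * (((p : E) ^ m)⁻¹ • (B ^ p ^ m - 1)) * A') atTop (𝓝 (A * Y * A')) :=
    (tendsto_const_nhds.mul h).mul tendsto_const_nhds
  refine h1.congr fun m => ?_
  rw [hpow, mul_smul_comm, smul_mul_assoc, mul_sub, sub_mul, mul_one, hA]

/-- A matrix which commutes with the logarithm commutes with the matrix. -/
theorem comm_of_log {B Y y : Matrix (Fin n) (Fin n) E} (hB : Dv (rad p) (B - 1)) (h : IsLog p B Y)
    (hy : Y * y = y * Y) : B * y = y * B := by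
  rcases isEmpty_or_nonempty (Fin n) with hn | hn
  · exact Subsingleton.elim _ _
  have h0 := p_pos (p := p)
  have h1 := p_lt (p := p)
  have h2 := rad_pos (p := p)
  have h3 := rad_lt (p := p)
  have hpE := p_ne (p := p) (E := E)
  obtain ⟨i, j, hij⟩ := exists_max_entry (B * y - y * B)
  set r := ‖(B * y - y * B) i j‖ with hr
  have hlim : Tendsto (fun m : ℕ => ((p : E) ^ m)⁻¹ • (B ^ p ^ m * y - y * B ^ p ^ m)) atTop (𝓝 0) := by
    have h4 : Tendsto (fun m : ℕ => (((p : E) ^ m)⁻¹ • (B ^ p ^ m - 1)) * y - y * (((p : E) ^ m)⁻¹ • (B ^ p ^ m - 1)))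
        atTop (𝓝 (Y * y - y * Y)) := (h.mul tendsto_const_nhds).sub (tendsto_const_nhds.mul h)
    rw [hy, sub_self] at h4
    refine h4.congr fun m => ?_
    rw [smul_mul_assoc, mul_smul_comm, ← smul_sub, sub_mul, mul_sub, one_mul, mul_one]
    congr 1
    abel
  by_contra hne
  have hrpos : 0 < r := by
    refine lt_of_le_of_ne (norm_nonneg _) fun h => hne ?_
    rw [← h] at hij
    rw [← sub_eq_zero]
    ext a b
    exact norm_le_zero_iff.1 (hij a b)
  have hall : ∀ m : ℕ, Dv (((p : ℝ)⁻¹) ^ m * r) (B ^ p ^ m * y - y * B ^ p ^ m) ∧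
      ‖(B ^ p ^ m * y - y * B ^ p ^ m) i j‖ = ((p : ℝ)⁻¹) ^ m * r := by
    intro m
    induction m with
    | zero =>
      rw [pow_zero, pow_zero, one_mul, pow_one]
      exact ⟨hij, rfl⟩
    | succ m ih =>
      obtain ⟨ih1, ih2⟩ := ih
      have hpos : 0 < ((p : ℝ)⁻¹) ^ m * r := by positivity
      have h5 := comm_pow h2.le (rad_le_one (p := p)) hpos.le (Dv.pow h2.le (rad_le_one (p := p)) hB (p ^ m)) ih1 p
      rw [← pow_mul, ← pow_succ] at h5
      have e : B ^ p ^ (m + 1) * y - y * B ^ p ^ (m + 1) =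
          (B ^ p ^ (m + 1) * y - y * B ^ p ^ (m + 1) - (p : E) • (B ^ p ^ m * y - y * B ^ p ^ m)) +
            (p : E) • (B ^ p ^ m * y - y * B ^ p ^ m) := by abel
      have h6 : ‖(p : E)‖ * (((p : ℝ)⁻¹) ^ m * r) = ((p : ℝ)⁻¹) ^ (m + 1) * r := by
        rw [norm_p (p := p)]
        ring
      have h7 : rad p * (((p : ℝ)⁻¹) ^ m * r) < ((p : ℝ)⁻¹) ^ (m + 1) * r := by
        calc rad p * (((p : ℝ)⁻¹) ^ m * r) < (p : ℝ)⁻¹ * (((p : ℝ)⁻¹) ^ m * r) := mul_lt_mul_of_pos_right h3 hpos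
          _ = _ := by ring
      constructor
      · rw [e]
        exact Dv.add (h5.mono h7.le) ((ih1.smul (p : E)).mono h6.le)
      · rw [e, Matrix.add_apply]
        have h8 : ‖((p : E) • (B ^ p ^ m * y - y * B ^ p ^ m)) i j‖ = ((p : ℝ)⁻¹) ^ (m + 1) * r := by
          rw [Matrix.smul_apply, norm_smul, ih2, h6]
        have h9 := (h5 i j).trans_lt h7
        rw [IsUltrametricDist.norm_add_eq_max_of_norm_ne_norm (by rw [h8]; exact h9.ne), h8]
        exact max_eq_right h9.le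
  have h4 : Tendsto (fun m : ℕ => ‖(((p : E) ^ m)⁻¹ • (B ^ p ^ m * y - y * B ^ p ^ m)) i j‖) atTop (𝓝 0) := by
    have h5 := ((tendsto_pi_nhds.1 ((tendsto_pi_nhds.1 hlim) i)) j).norm
    rwa [Matrix.zero_apply, norm_zero] at h5
  have h5 : ∀ m : ℕ, ‖(((p : E) ^ m)⁻¹ • (B ^ p ^ m * y - y * B ^ p ^ m)) i j‖ = r := by
    intro m
    rw [Matrix.smul_apply, norm_smul, (hall m).2, norm_inv, norm_pow, norm_p (p := p), ← mul_assoc,
      inv_mul_cancel₀ (pow_ne_zero m h0.ne'), one_mul]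
  have h6 := tendsto_nhds_unique h4 (by simp only [h5]; exact tendsto_const_nhds)
  exact hrpos.ne h6

end padic

end Pool.Agent.X320.KR
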