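import Pool.Agent.X320.RU.Core

/-! The core of the argument, up to scalars. -/

set_option autoImplicit false
set_option linter.all false

namespace Pool.Agent.X320.KR

open Module Polynomial Pool.Agent.X320.RU

section traces

variable {k : Type*} [Field k] {S : Type*} [AddCommGroup S] [Module k S]

theorem finite_traces_eig [IsAlgClosed k] [FiniteDimensional k S] {N : ℕ} (hN : 0 < N) :
    {t : k | ∃ y : End k S, (∀ a, y.HasEigenvalue a → a ^ N = 1) ∧ t = LinearMap.trace k S y}.Finite := by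
  classical
  have hfin : {a : k | a ^ N = 1}.Finite := by
    refine ((X ^ N - 1 : k[X]).roots.toFinset.finite_toSet).subset fun a ha => ?_
    have hne : (X ^ N - 1 : k[X]) ≠ 0 := by
      have := X_pow_sub_C_ne_zero hN (1 : k)
      rwa [map_one] at this
    rw [Finset.mem_coe, Multiset.mem_toFinset, mem_roots hne, IsRoot, eval_sub, eval_pow, eval_X, eval_one,
      sub_eq_zero]
    exact ha
  haveI : Finite {a : k | a ^ N = 1} := hfin
  refine (Set.finite_range fun f : Fin (finrank k S) → {a : k | a ^ N = 1} => ∑ i, (f i : k)).subset ?_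
  rintro t ⟨y, hy, rfl⟩
  rw [Module.End.trace_eq_sum_roots_charpoly_of_splits (IsAlgClosed.splits _)]
  have hcard : Multiset.card (LinearMap.charpoly y).roots = finrank k S := by
    rw [splits_iff_card_roots.1 (IsAlgClosed.splits _), LinearMap.charpoly_natDegree]
  set l := (LinearMap.charpoly y).roots.toList with hl
  have hlen : l.length = finrank k S := by rw [hl, Multiset.length_toList, hcard]
  have hmem : ∀ a ∈ l, a ^ N = 1 := by
    intro a ha
    rw [hl, Multiset.mem_toList] at ha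
    have h1 := isRoot_of_mem_roots ha
    rw [← Module.End.hasEigenvalue_iff_isRoot_charpoly] at h1
    exact hy a h1
  refine ⟨fun i => ⟨l.get (i.cast hlen.symm), hmem _ (List.get_mem _ _)⟩, ?_⟩
  show ∑ i : Fin (finrank k S), l.get (i.cast hlen.symm) = _
  have h1 : (LinearMap.charpoly y).roots.sum = l.sum := by
    rw [hl, Multiset.sum_toList]
  rw [h1, ← List.sum_ofFn]
  congr 1
  have h2 : l = List.ofFn l.get := (List.ofFn_get l).symm
  conv_rhs => rw [h2]
  exact (List.ofFn_congr hlen _).symm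

theorem det_pow_eig [IsAlgClosed k] [FiniteDimensional k S] {t : End k S} {N : ℕ} {c : k}
    (h : ∀ a, t.HasEigenvalue a → a ^ N = c) : (LinearMap.det t) ^ N = c ^ finrank k S := by
  have h0 : (LinearMap.charpoly t).roots.prod ^ N = ((LinearMap.charpoly t).roots.map (fun a => a ^ N)).prod := by
    rw [Multiset.prod_map_pow, Multiset.map_id']
  rw [Module.End.det_eq_prod_roots_charpoly_of_splits (IsAlgClosed.splits _), h0]
  have hcard : Multiset.card (LinearMap.charpoly t).roots = finrank k S := by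
    rw [splits_iff_card_roots.1 (IsAlgClosed.splits _), LinearMap.charpoly_natDegree]
  have h1 : (LinearMap.charpoly t).roots.map (fun a => a ^ N) = (LinearMap.charpoly t).roots.map (fun _ => c) := by
    refine Multiset.map_congr rfl fun a ha => ?_
    have h1 := isRoot_of_mem_roots ha
    rw [← Module.End.hasEigenvalue_iff_isRoot_charpoly] at h1
    exact h a h1
  rw [h1, Multiset.map_const', Multiset.prod_replicate, hcard]

end traces

variable {Γ : Type*} [Group Γ] {k : Type*} [Field k] [IsAlgClosed k] [CharZero k]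
  {R : Type*} [Ring R] [Algebra k R] {V : Type*} [AddCommGroup V]
  [Module k V] [Module R V] [IsScalarTower k R V] [FiniteDimensional k V]
  (T : Γ →* (V ≃ₗ[k] V)) (c : Γ →* (R ≃ₐ[k] R)) (hT : ∀ g (a : R) (v : V), T g (a • v) = c g a • T g v)
  (W : Subgroup Γ) (r : W → R) (hr : ∀ (w : W) (v : V), r w • v = T w v) (S : Submodule R V)

include hT hr in
theorem core_proj [IsSimpleModule R S] {g : Γ} (hg : g ∈ stab c S) {N : ℕ} (hN : 0 < N) :
    ∃ (L : End k V →ₗ[k] k) (X : Set k), X.Finite ∧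
      (∀ w ∈ W, (∀ a b, Module.End.HasEigenvalue (T (g * w) : V →ₗ[k] V) a →
          Module.End.HasEigenvalue (T (g * w) : V →ₗ[k] V) b → a ^ N = b ^ N) →
        ∃ x ∈ X, L (T w : V →ₗ[k] V) ^ (N * finrank k V) = x * LinearMap.det (T (g * w) : V →ₗ[k] V) ^ N) ∧
      (∀ (H : Subgroup Γ) (hH : H ≤ W),
        (∀ a : R, a ∈ Submodule.span k {b | ∃ (h : Γ) (hh : h ∈ H), b = r ⟨h, hH hh⟩}) →
        ∀ x₀ ∈ W, ¬ ∀ h ∈ H, L (T (h * x₀) : V →ₗ[k] V) = 0) ∧
      ∀ (H : Subgroup Γ) (hH : H ≤ W),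
        (∀ a : R, a ∈ Submodule.span k {b | ∃ (h : Γ) (hh : h ∈ H), b = r ⟨h, hH hh⟩}) →
        ∀ x₀ ∈ W, ∀ h₀ ∈ H, ∀ c₀ : k,
          (∀ h ∈ H, L (T (h * h₀ * x₀) : V →ₗ[k] V) = c₀ * L (T (h * x₀) : V →ₗ[k] V)) →
          ∀ s ∈ S, T h₀ s = c₀ • s := by
  classical
  haveI : IsScalarTower k R S := ⟨fun x y z => Subtype.ext (smul_assoc x y z.1)⟩
  haveI : FiniteDimensional k S := inferInstanceAs (FiniteDimensional k (S.restrictScalars k))
  haveI : Nontrivial S := IsSimpleModule.nontrivial R S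
  obtain ⟨A, hA⟩ := hg
  obtain ⟨f, β, hfinj, hβ, hf⟩ := eigen S (c g) (T g) (hT g) A hA
  let ι : S →ₗ[k] V := { toFun := fun s => s.1, map_add' := fun _ _ => rfl, map_smul' := fun _ _ => rfl }
  have hι : LinearMap.ker ι = ⊥ := by
    rw [LinearMap.ker_eq_bot']
    intro s hs
    exact Subtype.ext hs
  obtain ⟨π, hπ⟩ := LinearMap.exists_leftInverse_of_injective ι hι
  have hπι : ∀ s : S, π s.1 = s := fun s => LinearMap.congr_fun hπ s
  obtain ⟨B, hB⟩ : ∃ B : End k S, ∀ s, B s = β • A s := ⟨β • (A : S →ₗ[k] S), fun _ => rfl⟩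
  obtain ⟨B', hB'⟩ : ∃ B : End k S, ∀ s, B s = β⁻¹ • A.symm s := ⟨β⁻¹ • (A.symm : S →ₗ[k] S), fun _ => rfl⟩
  have hBB' : B * B' = 1 := by
    ext s
    rw [Module.End.mul_apply, hB, hB', map_smul, smul_smul, mul_inv_cancel₀ hβ, one_smul,
      LinearEquiv.apply_symm_apply, Module.End.one_apply]
  let L : End k V →ₗ[k] k :=
    { toFun := fun u => LinearMap.trace k S (B * (π ∘ₗ u ∘ₗ ι))
      map_add' := fun u v => by
        have : B * (π ∘ₗ (u + v) ∘ₗ ι) = B * (π ∘ₗ u ∘ₗ ι) + B * (π ∘ₗ v ∘ₗ ι) := by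
          rw [← mul_add]
          congr 1
          ext s
          simp
        rw [this, map_add]
      map_smul' := fun x u => by
        have : B * (π ∘ₗ (x • u) ∘ₗ ι) = x • (B * (π ∘ₗ u ∘ₗ ι)) := by
          rw [← mul_smul_comm]
          congr 1
          ext s
          simp
        rw [this, map_smul]
        rfl }
  have hL : ∀ u, L u = LinearMap.trace k S (B * (π ∘ₗ u ∘ₗ ι)) := fun u => rfl
  -- the action of `R` on `S`
  let act : R →ₐ[k] End k S := Algebra.lsmul k k S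
  have hact : ∀ a s, act a s = a • s := fun a s => rfl
  have hTact : ∀ w : W, π ∘ₗ (T w : V →ₗ[k] V) ∘ₗ ι = act (r w) := by
    intro w
    ext s
    congr 1
    show π (T w s.1) = r w • s
    rw [← hr]
    exact hπι (r w • s)
  have hmulr : ∀ (a b : W), act (r (a * b)) = act (r a) * act (r b) := by
    intro a b
    ext s
    show r (a * b) • s.1 = r a • r b • s.1
    rw [hr, hr, hr, Subgroup.coe_mul, map_mul]
    rfl
  have hinv : ∀ (x : Γ) (hx : x ∈ W), act (r ⟨x, hx⟩) * act (r ⟨x⁻¹, W.inv_mem hx⟩) = 1 := by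
    intro x hx
    rw [← hmulr]
    ext s
    show r _ • s.1 = s.1
    rw [hr]
    show T (x * x⁻¹) s.1 = s.1
    rw [mul_inv_cancel, map_one]
    rfl
  -- the main step
  have hmain : ∀ (H : Subgroup Γ) (hH : H ≤ W),
      (∀ a : R, a ∈ Submodule.span k {b | ∃ (h : Γ) (hh : h ∈ H), b = r ⟨h, hH hh⟩}) →
      ∀ (x₀ : Γ) (hx₀ : x₀ ∈ W) (z : End k S),
        (∀ (h : Γ) (hh : h ∈ H), LinearMap.trace k S (B * (act (r ⟨h, hH hh⟩) * (z * act (r ⟨x₀, hx₀⟩)))) = 0) →
        z = 0 := by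
    intro H hH hspan x₀ hx₀ z hz
    have h2 : ∀ a : R, LinearMap.trace k S (B * (act a * (z * act (r ⟨x₀, hx₀⟩)))) = 0 := by
      intro a
      refine Submodule.span_induction (p := fun a _ =>
        LinearMap.trace k S (B * (act a * (z * act (r ⟨x₀, hx₀⟩)))) = 0) ?_ ?_ ?_ ?_ (hspan a)
      · rintro _ ⟨h, hh, rfl⟩
        exact hz h hh
      · rw [map_zero, zero_mul, mul_zero, map_zero]
      · intro a b _ _ ha hb
        rw [map_add, add_mul, mul_add, map_add, ha, hb, add_zero]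
      · intro x a _ ha
        have e : B * (act (x • a) * (z * act (r ⟨x₀, hx₀⟩))) = x • (B * (act a * (z * act (r ⟨x₀, hx₀⟩)))) := by
          rw [map_smul, smul_mul_assoc, mul_smul_comm]
        rw [e, map_smul, ha, smul_zero]
    have h3 : z * act (r ⟨x₀, hx₀⟩) * B = 0 := by
      apply trace_zero
      intro u
      obtain ⟨a, ha⟩ := burnside (R := R) u
      have hu : u = act a := by
        ext s
        rw [hact, ha]
      rw [hu]
      have h4 := h2 a
      rw [LinearMap.trace_mul_comm] at h4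
      rw [← mul_assoc, ← mul_assoc]
      rw [← mul_assoc] at h4
      exact h4
    have h5 : z * act (r ⟨x₀, hx₀⟩) * B * (B' * act (r ⟨x₀⁻¹, W.inv_mem hx₀⟩)) = 0 := by
      rw [h3, zero_mul]
    rwa [mul_assoc, ← mul_assoc B, hBB', one_mul, mul_assoc, hinv, mul_one] at h5
  refine ⟨L, (fun t => t ^ (N * finrank k V)) '' _, (finite_traces_eig (k := k) (S := S) hN).image _, ?_, ?_, ?_⟩
  · intro w hw heig
    set y : End k S := B * act (r ⟨w, hw⟩) with hy
    have hint : ∀ s, (f.restrictScalars k) (y s) = (T (g * w) : V →ₗ[k] V) ((f.restrictScalars k) s) := by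
      intro s
      show f (B (r ⟨w, hw⟩ • s)) = T (g * w) (f s)
      rw [hB]
      have h1 : f (β • A (r ⟨w, hw⟩ • s)) = β • f (A (r ⟨w, hw⟩ • s)) :=
        (f.restrictScalars k).map_smul β _
      rw [h1, ← hf, map_smul, hr, map_mul]
      rfl
    have hyeig : ∀ a, y.HasEigenvalue a → Module.End.HasEigenvalue (T (g * w) : V →ₗ[k] V) a := by
      intro a ha
      obtain ⟨s, hs⟩ := ha.exists_hasEigenvector
      have h1 := hint s
      rw [hs.apply_eq_smul, map_smul] at h1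
      refine Module.End.hasEigenvalue_of_hasEigenvector (x := f s) ⟨?_, ?_⟩
      · rw [Module.End.mem_eigenspace_iff]
        exact h1.symm
      · intro h0
        exact hs.2 (hfinj (by rw [h0, map_zero]))
    obtain ⟨l, hl⟩ := Module.End.exists_eigenvalue y
    have hlT := hyeig l hl
    have hl0 : l ≠ 0 := by
      rintro rfl
      obtain ⟨v, hv⟩ := hlT.exists_hasEigenvector
      have h1 := hv.apply_eq_smul
      rw [zero_smul] at h1
      exact hv.2 ((T (g * w)).map_eq_zero_iff.1 h1)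
    have hdet : LinearMap.det (T (g * w) : V →ₗ[k] V) ^ N = (l ^ N) ^ finrank k V :=
      det_pow_eig fun a ha => heig a l ha hlT
    refine ⟨_, ⟨LinearMap.trace k S (l⁻¹ • y), ⟨l⁻¹ • y, ?_, rfl⟩, rfl⟩, ?_⟩
    · intro a ha
      obtain ⟨s, hs⟩ := ha.exists_hasEigenvector
      have h1 : y s = (l * a) • s := by
        have h2 := hs.apply_eq_smul
        rw [LinearMap.smul_apply] at h2
        rw [mul_smul, ← h2, smul_smul, mul_inv_cancel₀ hl0, one_smul]
      have h2 : y.HasEigenvalue (l * a) :=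
        Module.End.hasEigenvalue_of_hasEigenvector (x := s) ⟨Module.End.mem_eigenspace_iff.2 h1, hs.2⟩
      have h3 := heig _ _ (hyeig _ h2) hlT
      rw [mul_pow] at h3
      exact (mul_right_eq_self₀.1 h3).resolve_right (pow_ne_zero N hl0)
    · show L (T w : V →ₗ[k] V) ^ (N * finrank k V) = (LinearMap.trace k S (l⁻¹ • y)) ^ (N * finrank k V) * _
      have h1 : L (T w : V →ₗ[k] V) = LinearMap.trace k S y := by
        rw [hL, hTact ⟨w, hw⟩]
      rw [h1, hdet, map_smul, smul_eq_mul, mul_pow, ← pow_mul, mul_right_comm, ← mul_pow, inv_mul_cancel₀ hl0, one_pow,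
        one_mul]
  · intro H hH hspan x₀ hx₀ h0
    have h1 := hmain H hH hspan x₀ hx₀ 1 (fun h hh => by
      have h2 := h0 h hh
      rw [hL, hTact ⟨h * x₀, W.mul_mem (hH hh) hx₀⟩] at h2
      have h3 := hmulr ⟨h, hH hh⟩ ⟨x₀, hx₀⟩
      rw [one_mul, ← h3]
      exact h2)
    exact one_ne_zero h1
  · intro H hH hspan x₀ hx₀ h₀ hh₀ c₀ hc s hs
    have h1 := hmain H hH hspan x₀ hx₀ (act (r ⟨h₀, hH hh₀⟩) - c₀ • 1) (fun h hh => by
      have h2 := hc h hh
      rw [hL, hL, hTact ⟨h * x₀, W.mul_mem (hH hh) hx₀⟩,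
        hTact ⟨h * h₀ * x₀, W.mul_mem (W.mul_mem (hH hh) (hH hh₀)) hx₀⟩] at h2
      have h3 : act (r ⟨h * x₀, W.mul_mem (hH hh) hx₀⟩) = act (r ⟨h, hH hh⟩) * act (r ⟨x₀, hx₀⟩) :=
        hmulr ⟨h, hH hh⟩ ⟨x₀, hx₀⟩
      have h4 : act (r ⟨h * h₀ * x₀, W.mul_mem (W.mul_mem (hH hh) (hH hh₀)) hx₀⟩) =
          act (r ⟨h, hH hh⟩) * act (r ⟨h₀, hH hh₀⟩) * act (r ⟨x₀, hx₀⟩) := by
        have h5 : act (r ⟨h * h₀ * x₀, W.mul_mem (W.mul_mem (hH hh) (hH hh₀)) hx₀⟩) =
          act (r ⟨h * h₀, W.mul_mem (hH hh) (hH hh₀)⟩) * act (r ⟨x₀, hx₀⟩) :=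
          hmulr ⟨h * h₀, W.mul_mem (hH hh) (hH hh₀)⟩ ⟨x₀, hx₀⟩
        have h6 : act (r ⟨h * h₀, W.mul_mem (hH hh) (hH hh₀)⟩) = act (r ⟨h, hH hh⟩) * act (r ⟨h₀, hH hh₀⟩) :=
          hmulr ⟨h, hH hh⟩ ⟨h₀, hH hh₀⟩
        rw [h5, h6]
      rw [h3, h4] at h2
      have e : B * (act (r ⟨h, hH hh⟩) * ((act (r ⟨h₀, hH hh₀⟩) - c₀ • 1) * act (r ⟨x₀, hx₀⟩))) =
          B * (act (r ⟨h, hH hh⟩) * act (r ⟨h₀, hH hh₀⟩) * act (r ⟨x₀, hx₀⟩)) -
          c₀ • (B * (act (r ⟨h, hH hh⟩) * act (r ⟨x₀, hx₀⟩))) := by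
        rw [sub_mul, smul_mul_assoc, one_mul, mul_sub, mul_sub, mul_smul_comm, mul_smul_comm, mul_assoc (act _) (act _)]
      rw [e, map_sub, map_smul, h2, smul_eq_mul, sub_self])
    have h2 := LinearMap.congr_fun (sub_eq_zero.1 h1) (⟨s, hs⟩ : S)
    have h3 : r ⟨h₀, hH hh₀⟩ • s = c₀ • s := congrArg Subtype.val h2
    rw [hr] at h3
    exact h3

end Pool.Agent.X320.KR
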