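import Pool.Agent.X320.KR.Kreknin

/-! A Lie algebra of matrices with an automorphism of finite order whose fixed points are central. -/

set_option autoImplicit false
set_option linter.all false

namespace Pool.Agent.X320.KR

open LieAlgebra Matrix

attribute [local instance 100] LieRing.ofAssociativeRing

section solv

variable {k : Type*} [Field k] {L : Type*} [LieRing L] [LieAlgebra k L] {N : ℕ} [NeZero N]

theorem derived_le {E : ZMod N → Submodule k L} (hE : Sys E) (htop : ⨆ a, E a = ⊤) (m : ℕ) :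
    (derivedSeries k L m).toSubmodule ≤ ⨆ a, (DD^[m] E) a := by
  induction m with
  | zero =>
    rw [Function.iterate_zero, id, htop]
    exact le_top
  | succ m ih =>
    rw [derivedSeries_def, derivedSeriesOfIdeal_succ, LieSubmodule.lieIdeal_oper_eq_linear_span',
      Function.iterate_succ_apply']
    refine Submodule.span_le.2 ?_
    rintro _ ⟨x, hx, y, hy, rfl⟩
    have hx' : x ∈ ⨆ a, (DD^[m] E) a := ih hx
    have hy' : y ∈ ⨆ a, (DD^[m] E) a := ih hy
    generalize DD^[m] E = F at hx' hy' ⊢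
    refine Submodule.iSup_induction F (motive := fun x => ⁅x, y⁆ ∈ ⨆ a, DD F a) hx' ?_ ?_ ?_
    · intro a x hx
      refine Submodule.iSup_induction F (motive := fun y => ⁅x, y⁆ ∈ ⨆ a, DD F a) hy' ?_ ?_ ?_
      · intro b y hy
        exact Submodule.mem_iSup_of_mem (a + b) (Submodule.subset_span ⟨a, b, x, y, rfl, hx, hy, rfl⟩)
      · rw [lie_zero]
        exact Submodule.zero_mem _
      · intro y y' h h'
        rw [lie_add]
        exact Submodule.add_mem _ h h'
    · rw [zero_lie]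
      exact Submodule.zero_mem _
    · intro x x' h h'
      rw [add_lie]
      exact Submodule.add_mem _ h h'

theorem solvable_of {E : ZMod N → Submodule k L} (hE : Sys E) (htop : ⨆ a, E a = ⊤) : IsSolvable L := by
  obtain ⟨m, hm⟩ := kreknin hE
  refine IsSolvable.mk (R := k) (k := m) ?_
  rw [eq_bot_iff]
  intro x hx
  have h1 := derived_le hE htop m hx
  simp only [hm, iSup_bot] at h1
  exact h1

end solv

section decomp

variable {k : Type*} [Field k] {V : Type*} [AddCommGroup V] [Module k V] {N : ℕ} [NeZero N]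

theorem decomp {ζ : k} (hζ : IsPrimitiveRoot ζ N) (hN : (N : k) ≠ 0) (σ : Module.End k V)
    (hσ : ∀ v, (σ ^ N) v = v) (E : ZMod N → Submodule k V) (hE : ∀ a v, σ v = ζ ^ a.val • v → v ∈ E a) :
    ⨆ a, E a = ⊤ := by
  have hN0 : 0 < N := Nat.pos_of_ne_zero (NeZero.ne N)
  have hζ0 : ζ ≠ 0 := hζ.ne_zero hN0.ne'
  rw [eq_top_iff]
  intro v _
  let p : ZMod N → V := fun a => ∑ i ∈ Finset.range N, (ζ⁻¹) ^ (a.val * i) • (σ ^ i) v
  have hp : ∀ a, p a ∈ E a := by
    intro a
    apply hE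
    have h1 : ∀ i, σ ((ζ⁻¹) ^ (a.val * i) • (σ ^ i) v) = ζ ^ a.val • ((ζ⁻¹) ^ (a.val * (i + 1)) • (σ ^ (i + 1)) v) := by
      intro i
      rw [map_smul, smul_smul, pow_succ' σ, Module.End.mul_apply]
      congr 1
      rw [mul_add, mul_one, pow_add, mul_comm ((ζ⁻¹) ^ (a.val * i)), ← mul_assoc, ← mul_pow,
        mul_inv_cancel₀ hζ0, one_pow, one_mul]
    show σ (∑ i ∈ Finset.range N, (ζ⁻¹) ^ (a.val * i) • (σ ^ i) v) = _
    rw [map_sum, Finset.sum_congr rfl fun i _ => h1 i, ← Finset.smul_sum]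
    congr 1
    have h2 := Finset.sum_range_succ' (fun i => (ζ⁻¹) ^ (a.val * i) • (σ ^ i) v) N
    rw [Finset.sum_range_succ] at h2
    have h3 : (ζ⁻¹) ^ (a.val * N) • (σ ^ N) v = (ζ⁻¹) ^ (a.val * 0) • (σ ^ 0) v := by
      rw [hσ, mul_zero, pow_zero, pow_zero, mul_comm, pow_mul, inv_pow, hζ.pow_eq_one, inv_one, one_pow]
      rfl
    rw [h3] at h2
    exact (add_right_cancel h2).symm
  have hsum : ∑ a, p a = (N : k) • v := by
    show ∑ a : ZMod N, ∑ i ∈ Finset.range N, (ζ⁻¹) ^ (a.val * i) • (σ ^ i) v = _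
    rw [Finset.sum_comm]
    have h1 : ∀ i ∈ Finset.range N, ∑ a : ZMod N, (ζ⁻¹) ^ (a.val * i) • (σ ^ i) v =
        if i = 0 then (N : k) • v else 0 := by
      intro i hi
      rw [← Finset.sum_smul]
      have h2 : ∑ a : ZMod N, (ζ⁻¹) ^ (a.val * i) = ∑ j ∈ Finset.range N, ((ζ⁻¹) ^ i) ^ j := by
        obtain ⟨m, rfl⟩ : ∃ m, N = m + 1 := ⟨N - 1, by omega⟩
        rw [← Fin.sum_univ_eq_sum_range (fun j => ((ζ⁻¹) ^ i) ^ j) (m + 1)]
        refine Finset.sum_congr rfl fun a _ => ?_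
        rw [← pow_mul, mul_comm]
        rfl
      rw [h2]
      split_ifs with h
      · subst h
        simp
      · have h3 := geom_sum_mul ((ζ⁻¹) ^ i) N
        have h4 : ((ζ⁻¹) ^ i) ^ N = 1 := by
          rw [← pow_mul, mul_comm, pow_mul, inv_pow, hζ.pow_eq_one, inv_one, one_pow]
        have h5 : (ζ⁻¹) ^ i ≠ 1 := by
          intro h5
          rw [inv_pow, inv_eq_one] at h5
          have h6 := (hζ.pow_eq_one_iff_dvd i).1 h5
          have h7 := Nat.le_of_dvd (Nat.pos_of_ne_zero h) h6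
          have := Finset.mem_range.1 hi
          omega
        rw [h4, sub_self] at h3
        rw [(mul_eq_zero.1 h3).resolve_right (sub_ne_zero.2 h5), zero_smul]
    rw [Finset.sum_congr rfl h1, Finset.sum_ite_eq' (Finset.range N) 0 (fun _ => (N : k) • v),
      if_pos (Finset.mem_range.2 hN0)]
  have hv : v = (N : k)⁻¹ • ∑ a, p a := by
    rw [hsum, smul_smul, inv_mul_cancel₀ hN, one_smul]
  rw [hv]
  exact Submodule.smul_mem _ _ (Submodule.sum_mem _ fun a _ => Submodule.mem_iSup_of_mem a (hp a))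

end decomp

section common

/-- The common kernel of the brackets. -/
theorem common_closed {k : Type*} [Field k] [CharZero k] [IsAlgClosed k] {n : ℕ}
    (L : LieSubalgebra k (Matrix (Fin n) (Fin n) k)) (A A' : Matrix (Fin n) (Fin n) k) (hA : A * A' = 1)
    (hA' : A' * A = 1) (hconj : ∀ X ∈ L, A * X * A' ∈ L) {N : ℕ} (hN : 0 < N)
    (hAN : ∀ X ∈ L, A ^ N * X = X * A ^ N)
    (hsum : ∀ X ∈ L, ∀ Y ∈ L, (∑ i ∈ Finset.range N, A ^ i * X * A' ^ i) * Y =
      Y * ∑ i ∈ Finset.range N, A ^ i * X * A' ^ i)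
    (W : Submodule k (Fin n → k)) (hW : W ≠ ⊥) (hLW : ∀ X ∈ L, ∀ v ∈ W, X *ᵥ v ∈ W) :
    ∃ v ∈ W, v ≠ 0 ∧ ∀ X ∈ L, ∀ Y ∈ L, (X * Y - Y * X) *ᵥ v = 0 := by
  haveI : NeZero N := ⟨hN.ne'⟩
  have hNk : (N : k) ≠ 0 := by exact_mod_cast hN.ne'
  haveI : NeZero (N : k) := ⟨hNk⟩
  obtain ⟨ζ, hζ⟩ : ∃ ζ : k, IsPrimitiveRoot ζ N := HasEnoughRootsOfUnity.exists_primitiveRoot k N
  let σ : Module.End k L :=
    { toFun := fun X => ⟨A * X.1 * A', hconj X.1 X.2⟩
      map_add' := fun X Y => Subtype.ext (by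
        show A * (X.1 + Y.1) * A' = A * X.1 * A' + A * Y.1 * A'
        rw [mul_add, add_mul])
      map_smul' := fun c X => Subtype.ext (by
        show A * (c • X.1) * A' = c • (A * X.1 * A')
        rw [mul_smul_comm, smul_mul_assoc]) }
  have hσ1 : ∀ X : L, (σ X).1 = A * X.1 * A' := fun X => rfl
  have hσi : ∀ (i : ℕ) (X : L), ((σ ^ i) X).1 = A ^ i * X.1 * A' ^ i := by
    intro i
    induction i with
    | zero => intro X; simp
    | succ i ih =>
      intro X
      rw [pow_succ', Module.End.mul_apply, hσ1, ih, pow_succ' A, pow_succ A']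
      simp only [mul_assoc]
  have hAAi : ∀ i : ℕ, A ^ i * A' ^ i = 1 := by
    intro i
    induction i with
    | zero => simp
    | succ i ih =>
      rw [pow_succ A, pow_succ' A', mul_assoc, ← mul_assoc A, hA, one_mul, ih]
  have hσN : ∀ X : L, (σ ^ N) X = X := by
    intro X
    apply Subtype.ext
    rw [hσi, hAN X.1 X.2, mul_assoc, hAAi, mul_one]
  let E : ZMod N → Submodule k L := fun a => LinearMap.ker (σ - ζ ^ a.val • (1 : Module.End k L))
  have hE : ∀ a (X : L), X ∈ E a ↔ σ X = ζ ^ a.val • X := by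
    intro a X
    show (σ - ζ ^ a.val • (1 : Module.End k L)) X = 0 ↔ _
    rw [LinearMap.sub_apply, LinearMap.smul_apply, Module.End.one_apply, sub_eq_zero]
  have hpow : ∀ a b : ZMod N, ζ ^ (a + b).val = ζ ^ a.val * ζ ^ b.val := by
    intro a b
    rw [← pow_add]
    rcases val_add_cases a b with h | h
    · rw [h]
    · rw [← h, pow_add, hζ.pow_eq_one, mul_one]
  have hbrσ : ∀ X Y : L, σ ⁅X, Y⁆ = ⁅σ X, σ Y⁆ := by
    intro X Y
    apply Subtype.ext
    rw [LieSubalgebra.coe_bracket, hσ1, hσ1, hσ1, LieSubalgebra.coe_bracket, Ring.lie_def, Ring.lie_def]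
    have h1 : ∀ Y : Matrix (Fin n) (Fin n) k, A' * (A * Y) = Y := fun Y => by rw [← mul_assoc, hA', one_mul]
    simp only [mul_sub, sub_mul, mul_assoc, h1]
  have hsys : Sys E := by
    refine ⟨fun a b X Y hX hY => ?_, fun b X Y hX hY => ?_⟩
    · rw [hE] at hX hY ⊢
      rw [hbrσ, hX, hY, smul_lie, lie_smul, smul_smul, hpow]
    · rw [hE, ZMod.val_zero, pow_zero, one_smul] at hX
      have h1 : ∀ i : ℕ, (σ ^ i) X = X := by
        intro i
        induction i with
        | zero => simp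
        | succ i ih => rw [pow_succ', Module.End.mul_apply, ih, hX]
      have h2 : ∑ i ∈ Finset.range N, A ^ i * X.1 * A' ^ i = (N : k) • X.1 := by
        rw [Finset.sum_congr rfl fun i _ => ((hσi i X).symm.trans (congrArg Subtype.val (h1 i))),
          Finset.sum_const, Finset.card_range, Nat.cast_smul_eq_nsmul]
      have h3 := hsum X.1 X.2 Y.1 Y.2
      rw [h2, smul_mul_assoc, mul_smul_comm] at h3
      apply Subtype.ext
      rw [LieSubalgebra.coe_bracket, Ring.lie_def]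
      show X.1 * Y.1 - Y.1 * X.1 = 0
      rw [sub_eq_zero]
      exact smul_right_injective _ hNk h3
  have htop : ⨆ a, E a = ⊤ := decomp hζ hNk σ hσN E fun a X h => (hE a X).2 h
  haveI : IsSolvable L := solvable_of hsys htop
  let W' : LieSubmodule k L (Fin n → k) :=
    { W with lie_mem := fun {X v} hv => hLW X.1 X.2 v hv }
  haveI : Nontrivial W' := by
    obtain ⟨w, hw, hw0⟩ := Submodule.exists_mem_ne_zero_of_ne_bot hW
    exact ⟨⟨w, hw⟩, 0, fun h => hw0 (congrArg Subtype.val h)⟩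
  obtain ⟨χ, hχ⟩ := LieModule.exists_nontrivial_weightSpace_of_isSolvable k L W'
  obtain ⟨⟨v, hv⟩, hv0⟩ := exists_ne (0 : LieModule.weightSpace W' χ)
  rw [LieModule.mem_weightSpace] at hv
  have hact : ∀ (X : Matrix (Fin n) (Fin n) k) (hX : X ∈ L), X *ᵥ v.1 = χ ⟨X, hX⟩ • v.1 := by
    intro X hX
    have h1 := congrArg Subtype.val (hv ⟨X, hX⟩)
    exact h1
  refine ⟨v.1, v.2, fun h => hv0 (Subtype.ext (Subtype.ext h)), fun X hX Y hY => ?_⟩
  rw [sub_mulVec, ← mulVec_mulVec, ← mulVec_mulVec, hact X hX, hact Y hY, mulVec_smul, mulVec_smul, hact X hX,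
    hact Y hY, smul_smul, smul_smul, mul_comm, sub_self]

end common

end Pool.Agent.X320.KR
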